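import Pool.Agent.H61.WC.Td

/-!
# [H61 WC Div] THEOREM W (MP_187c26_nt), combinatorial half: division and the total degree

* `td_div`: division by a polynomial monic in `Y` whose total degree is its degree in `Y` preserves the total degree.
* `wc_T`: `g ∣ X ^ p V - U`, total degree of `U` at most `p - 1`, gives `g ∣ V`.
* `td_mul_ge`: the total degree of a product is the sum of the total degrees.
-/

set_option autoImplicit false

open Polynomial
open scoped Polynomial.Bivariate

namespace Pool.Agent.H61.WC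

variable {k : Type} [Field k]

theorem td_div (g : k[X][Y]) (hg : g.Monic) (h1 : 1 ≤ g.natDegree) (ht : TD g.natDegree g) (N : ℕ) :
    ∀ P : k[X][Y], TD N P → ∃ Q R : k[X][Y], P = g * Q + R ∧ TD (N - g.natDegree) Q ∧ TD N R ∧
      R.natDegree < g.natDegree := by
  intro P
  obtain ⟨d, hd⟩ : ∃ d, d = P.natDegree := ⟨_, rfl⟩
  induction d using Nat.strong_induction_on generalizing P with
  | _ d ih =>
    intro hP
    by_cases hlt : P.natDegree < g.natDegree
    · exact ⟨0, P, by ring, td_zero _, hP, hlt⟩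
    push Not at hlt
    obtain ⟨Q1, hQ1⟩ : ∃ Q1 : k[X][Y], Q1 = C P.leadingCoeff * Y ^ (P.natDegree - g.natDegree) := ⟨_, rfl⟩
    have hP0 : P ≠ 0 := by
      rintro rfl
      rw [natDegree_zero] at hlt
      omega
    have hlc : P.leadingCoeff ≠ 0 := leadingCoeff_ne_zero.2 hP0
    have hPN : P.leadingCoeff.natDegree + P.natDegree ≤ N := hP P.natDegree hlc
    have hQ1d : Q1.natDegree = P.natDegree - g.natDegree := by
      rw [hQ1, natDegree_C_mul_X_pow _ _ hlc]
    have hQ1l : Q1.leadingCoeff = P.leadingCoeff := by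
      rw [hQ1, leadingCoeff_C_mul_X_pow]
    have hQ1t : TD (N - g.natDegree) Q1 := by
      have h2 := (td_C (k := k) (le_refl P.leadingCoeff.natDegree)).mul ((td_Y (k := k)).pow (P.natDegree - g.natDegree))
      rw [← hQ1] at h2
      exact h2.mono (by omega)
    have hgQ : TD N (g * Q1) := (ht.mul hQ1t).mono (by omega)
    have hgd : (g * Q1).natDegree = P.natDegree := by
      rw [hg.natDegree_mul', hQ1d]
      · omega
      · rintro h0
        rw [h0, leadingCoeff_zero] at hQ1l
        exact hlc hQ1l.symm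
    have hgl : (g * Q1).leadingCoeff = P.leadingCoeff := by
      rw [leadingCoeff_mul, hg.leadingCoeff, one_mul, hQ1l]
    have hlt2 : (P - g * Q1).natDegree < d := by
      have h3 : (P - g * Q1).degree < P.degree := by
        refine degree_sub_lt ?_ hP0 hgl.symm
        rw [degree_eq_natDegree hP0, degree_eq_natDegree, hgd]
        intro h0
        rw [h0, leadingCoeff_zero] at hgl
        exact hlc hgl.symm
      by_cases h4 : P - g * Q1 = 0
      · rw [h4, natDegree_zero]; omega
      · rw [hd]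
        exact natDegree_lt_natDegree h4 h3
    obtain ⟨Q, R, e1, e2, e3, e4⟩ := ih _ hlt2 (P - g * Q1) rfl (hP.sub hgQ)
    exact ⟨Q + Q1, R, by linear_combination e1, e2.add hQ1t, e3, e4⟩

theorem wc_T (g : k[X][Y]) (hg : g.Monic) (h1 : 1 ≤ g.natDegree) (ht : TD g.natDegree g) (p : ℕ) (hp : 1 ≤ p)
    (V U : k[X][Y]) (hU : TD (p - 1) U) (h : g ∣ C (X ^ p) * V - U) : g ∣ V := by
  obtain ⟨Q, R, e1, -, e3, e4⟩ := td_div g hg h1 ht _ U hU
  have hV : V = V %ₘ g + g * (V /ₘ g) := (modByMonic_add_div V g).symm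
  obtain ⟨S, hS⟩ : ∃ S, S = V %ₘ g := ⟨_, rfl⟩
  rw [← hS] at hV
  have hSd : S.natDegree < g.natDegree := by
    rw [hS]
    exact natDegree_modByMonic_lt V hg (fun h0 => by rw [h0, natDegree_one] at h1; omega)
  have h2 : g ∣ C (X ^ p) * S - R := by
    obtain ⟨c, hc⟩ := h
    refine ⟨c - C (X ^ p) * (V /ₘ g) + Q, ?_⟩
    have h3 : C (X ^ p) * S - R = (C (X ^ p) * V - U) - C (X ^ p) * (g * (V /ₘ g)) + g * Q := by
      rw [e1]
      linear_combination (-(C (X ^ p) : k[X][Y])) * hV
    rw [h3, hc]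
    ring
  have h5 : C (X ^ p) * S - R = 0 := by
    refine eq_zero_of_dvd_of_natDegree_lt h2 ?_
    refine (natDegree_sub_le _ _).trans_lt (max_lt ?_ e4)
    exact (natDegree_C_mul_le _ _).trans_lt hSd
  have h6 : S = 0 := by
    ext1 j
    rw [coeff_zero]
    have h7 : X ^ p * S.coeff j = R.coeff j := by
      have := congrArg (fun P : k[X][Y] => P.coeff j) h5
      simp only [coeff_sub, coeff_C_mul, coeff_zero] at this
      exact sub_eq_zero.1 this
    by_contra h8
    have h9 : (R.coeff j).natDegree = p + (S.coeff j).natDegree := by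
      rw [← h7, natDegree_X_pow_mul p h8, add_comm]
    have h10 := e3.coeff_le j
    omega
  rw [hV, h6, zero_add]
  exact dvd_mul_right _ _

/-- there is a nonzero coefficient of total degree `N` -/
theorem exists_top (P : k[X][Y]) (hP : P ≠ 0) : ∃ N, TD N P ∧ ∃ j s, s + j = N ∧ (P.coeff j).coeff s ≠ 0 ∧
    ∀ j' s', s' + j' = N → (P.coeff j').coeff s' ≠ 0 → j' ≤ j := by
  classical
  have hex : ∃ N, TD N P := by
    refine ⟨P.support.sup fun j => (P.coeff j).natDegree + j, fun j hj => ?_⟩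
    exact Finset.le_sup (f := fun j => (P.coeff j).natDegree + j) (mem_support_iff.2 hj)
  have hN := Nat.find_spec hex
  have hmin := fun m => Nat.find_min (m := m) hex
  obtain ⟨N, hNe⟩ : ∃ N, N = Nat.find hex := ⟨_, rfl⟩
  rw [← hNe] at hN hmin
  have h1 : ∃ j, ∃ s, s + j = N ∧ (P.coeff j).coeff s ≠ 0 := by
    by_contra hno
    push Not at hno
    rcases Nat.eq_zero_or_pos N with h0 | h0
    · apply hP
      ext j s
      rw [coeff_zero, coeff_zero]
      by_cases h2 : s + j = N
      · exact hno j s h2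
      · exact (td_iff N P).1 hN j s (by omega)
    · refine hmin (N - 1) (by omega) ((td_iff _ _).2 fun j a ha => ?_)
      by_cases h2 : a + j = N
      · exact hno j a h2
      · exact (td_iff N P).1 hN j a (by omega)
  have hb : ∃ n, ∀ m, (∃ s, s + m = N ∧ (P.coeff m).coeff s ≠ 0) → m ≤ n := ⟨N, fun m ⟨s, hs, _⟩ => by omega⟩
  obtain ⟨J, hJ⟩ : ∃ J, J = Nat.findGreatest (fun m => ∃ s, s + m = N ∧ (P.coeff m).coeff s ≠ 0) N := ⟨_, rfl⟩
  obtain ⟨j₀, s₀, hs₀, hc₀⟩ := h1
  have hJs := Nat.findGreatest_spec (P := fun m => ∃ s, s + m = N ∧ (P.coeff m).coeff s ≠ 0) (m := j₀) (n := N)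
    (by omega) ⟨s₀, hs₀, hc₀⟩
  rw [← hJ] at hJs
  obtain ⟨s, hs, hc⟩ := hJs
  refine ⟨N, hN, J, s, hs, hc, fun j' s' h1 h2 => ?_⟩
  rw [hJ]
  exact Nat.le_findGreatest (by omega) ⟨s', h1, h2⟩

theorem td_mul_ge (P Q : k[X][Y]) (hP : P ≠ 0) (hQ : Q ≠ 0) (N : ℕ) (h : TD N (P * Q)) :
    ∃ a b, a + b ≤ N ∧ TD a P ∧ TD b Q := by
  obtain ⟨a, ha, j, s, h1, h2, h3⟩ := exists_top P hP
  obtain ⟨b, hb, j', s', h4, h5, h6⟩ := exists_top Q hQ
  refine ⟨a, b, ?_, ha, hb⟩
  by_contra hlt
  push Not at hlt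
  have h7 : ((P * Q).coeff (j + j')).coeff (s + s') = 0 := (td_iff N _).1 h _ _ (by omega)
  have h8 : ((P * Q).coeff (j + j')).coeff (s + s') = (P.coeff j).coeff s * (Q.coeff j').coeff s' := by
    rw [coeff_mul, finset_sum_coeff, Finset.sum_eq_single (j, j')]
    · rw [coeff_mul, Finset.sum_eq_single (s, s')]
      · rintro ⟨x, y⟩ hxy hne
        rw [Finset.HasAntidiagonal.mem_antidiagonal] at hxy
        dsimp only at hxy ⊢
        by_cases hx : s < x
        · rw [(td_iff a P).1 ha j x (by omega), zero_mul]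
        · rw [(td_iff b Q).1 hb j' y ?_, mul_zero]
          have : x ≠ s := by
            rintro rfl
            exact hne (by rw [Prod.mk.injEq]; exact ⟨rfl, by omega⟩)
          omega
      · intro h9
        exact (h9 (Finset.HasAntidiagonal.mem_antidiagonal.2 rfl)).elim
    · rintro ⟨x, y⟩ hxy hne
      rw [Finset.HasAntidiagonal.mem_antidiagonal] at hxy
      dsimp only at hxy ⊢
      rw [coeff_mul]
      refine Finset.sum_eq_zero fun z hz => ?_
      rw [Finset.HasAntidiagonal.mem_antidiagonal] at hz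
      by_contra h9
      have h10 : (P.coeff x).coeff z.1 ≠ 0 := left_ne_zero_of_mul h9
      have h11 : (Q.coeff y).coeff z.2 ≠ 0 := right_ne_zero_of_mul h9
      have h12 : z.1 + x ≤ a := by
        by_contra hh
        exact h10 ((td_iff a P).1 ha _ _ (by omega))
      have h13 : z.2 + y ≤ b := by
        by_contra hh
        exact h11 ((td_iff b Q).1 hb _ _ (by omega))
      have h14 := h3 x z.1 (by omega) h10
      have h15 := h6 y z.2 (by omega) h11
      exact hne (by rw [Prod.mk.injEq]; omega)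
    · intro h9
      exact (h9 (Finset.HasAntidiagonal.mem_antidiagonal.2 rfl)).elim
  rw [h7] at h8
  exact mul_ne_zero h2 h5 h8.symm

end Pool.Agent.H61.WC
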