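import Pool.Agent.H61.WC.Ns

/-!
# [H61 WC Loc] THEOREM W (MP_187c26_nt), combinatorial half: the tangent line

`g` divides `I g_X + J g_Y` (`I = X ^ p - X`, `J = Y ^ p - Y`), the total degree of `g` is `e < p`, `P` is a point of `g` over `F_p` with `g_Y(P) ≠ 0`: the tangent line at `P` divides `g`.
-/

set_option autoImplicit false

open Polynomial
open scoped Polynomial.Bivariate

namespace Pool.Agent.H61.WC

section res

variable {k : Type} [Field k]

/-- chain rule on the line `Y = c(X)` -/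
theorem deriv_line (c : k[X]) (P : k[X][Y]) :
    Polynomial.derivative (P.eval c) = (dX P).eval c + Polynomial.derivative c * (Polynomial.derivative P).eval c := by
  induction P using Polynomial.induction_on' with
  | add P Q hP hQ =>
    rw [eval_add, map_add, hP, hQ, dX_add, map_add, eval_add, eval_add]
    ring
  | monomial n f =>
    have h1 : dX (monomial n f : k[X][Y]) = monomial n (Polynomial.derivative f) := by
      ext1 j
      rw [coeff_dX, coeff_monomial, coeff_monomial]
      split_ifs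
      · rfl
      · exact map_zero _
    rw [h1, eval_monomial, eval_monomial, derivative_monomial, eval_monomial, derivative_mul, derivative_pow]
    simp only [map_natCast]
    ring

theorem natDegree_line {e : ℕ} {P : k[X][Y]} (hP : TD e P) (c : k[X]) (hc : c.natDegree ≤ 1) : (P.eval c).natDegree ≤ e := by
  rw [eval_eq_sum, Polynomial.sum]
  refine natDegree_sum_le_of_forall_le _ _ fun j hj => ?_
  have h1 := hP j (mem_support_iff.1 hj)
  refine (natDegree_mul_le).trans ?_
  have h2 : (c ^ j).natDegree ≤ j * 1 := natDegree_pow_le_of_le j hc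
  omega

theorem evalEval_line (c : k[X]) (P : k[X][Y]) (x : k) : (P.eval c).eval x = P.evalEval x (c.eval x) := by
  rw [← map_evalRingHom_eval, eval_map]
  exact (eval₂_at_apply (evalRingHom x) c).symm

end res

variable (p : ℕ) [hp : Fact p.Prime]

theorem dX_II : dX (II p) = -1 := by
  unfold II
  rw [dX_C, derivative_sub, derivative_X_pow, derivative_X, CharP.cast_eq_zero, C_0, zero_mul, zero_sub, C_neg, C_1]

theorem dY_II : Polynomial.derivative (II p) = 0 := by
  unfold II
  rw [derivative_C]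

theorem dX_JJ : dX (JJ p) = 0 := by
  unfold JJ
  ext1 j
  rw [coeff_dX, coeff_sub, coeff_X_pow, coeff_X, coeff_zero]
  split_ifs <;> simp

theorem dY_JJ : Polynomial.derivative (JJ p) = -1 := by
  unfold JJ
  rw [derivative_sub, derivative_X_pow, derivative_X]
  have : ((p : ℕ) : (ZMod p)[X][Y]) = 0 := by
    rw [← C_eq_natCast, CharP.cast_eq_zero, C_0]
  rw [C_eq_natCast, this]
  simp

theorem wc_loc (g r : (ZMod p)[X][Y]) (e : ℕ) (he : e < p) (ht : TD e g)
    (h : II p * dX g + JJ p * Polynomial.derivative g = g * r) (x₀ y₀ : ZMod p) (h0 : g.evalEval x₀ y₀ = 0)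
    (h1 : (Polynomial.derivative g).evalEval x₀ y₀ ≠ 0) :
    ∃ a b : ZMod p, y₀ = a * x₀ + b ∧ (Y - C (C a * X + C b) : (ZMod p)[X][Y]) ∣ g := by
  obtain ⟨α, hα⟩ : ∃ α, α = (dX g).evalEval x₀ y₀ := ⟨_, rfl⟩
  obtain ⟨β, hβ⟩ : ∃ β, β = (Polynomial.derivative g).evalEval x₀ y₀ := ⟨_, rfl⟩
  rw [← hβ] at h1
  obtain ⟨a, ha⟩ : ∃ a, a = -α / β := ⟨_, rfl⟩
  have hαβ : α + a * β = 0 := by rw [ha]; field_simp; ring
  obtain ⟨b, hb⟩ : ∃ b, b = y₀ - a * x₀ := ⟨_, rfl⟩
  obtain ⟨c, hc⟩ : ∃ c : (ZMod p)[X], c = C a * X + C b := ⟨_, rfl⟩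
  have hcx : c.eval x₀ = y₀ := by
    rw [hc]
    simp [hb]
  have hcd : c.natDegree ≤ 1 := by
    rw [hc]
    exact natDegree_linear_le
  have hc' : Polynomial.derivative c = C a := by
    rw [hc]
    simp
  refine ⟨a, b, by rw [hb]; ring, ?_⟩
  rw [← hc, dvd_iff_isRoot, IsRoot]
  -- the value of `r` at the point is `-1`
  have hr : r.evalEval x₀ y₀ = -1 := by
    have h2 := congrArg (fun P => (Polynomial.derivative P).evalEval x₀ y₀) h
    simp only [derivative_add, derivative_mul, dY_II, dY_JJ, evalEval_add, evalEval_mul, evalEval_II, evalEval_JJ, h0,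
      evalEval_neg, evalEval_one, evalEval_zero] at h2
    rw [← hβ] at h2
    have h3 : β * (r.evalEval x₀ y₀ + 1) = 0 := by linear_combination -h2
    rcases mul_eq_zero.1 h3 with h4 | h4
    · exact absurd h4 h1
    · linear_combination h4
  by_contra hG
  obtain ⟨G, hGd⟩ : ∃ G, G = g.eval c := ⟨_, rfl⟩
  rw [← hGd] at hG
  have hG1 : G.eval x₀ = 0 := by rw [hGd, evalEval_line, hcx, h0]
  have hG2 : (Polynomial.derivative G).eval x₀ = 0 := by
    rw [hGd, deriv_line, eval_add, eval_mul, evalEval_line, evalEval_line, hcx, hc', eval_C, ← hα, ← hβ, hαβ]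
  have hdeg : G.natDegree ≤ e := by rw [hGd]; exact natDegree_line ht c hcd
  have hJc : (JJ p).eval c = C a * (X ^ p - X) := by
    unfold JJ
    rw [eval_sub, eval_pow, eval_X, hc, add_pow_char, mul_pow, ← C_pow, ← C_pow, ZMod.pow_card, ZMod.pow_card]
    ring
  have hmain : (X ^ p - X) * Polynomial.derivative G = G * r.eval c := by
    have h2 := congrArg (eval c) h
    rw [eval_add, eval_mul, eval_mul, eval_mul, hJc] at h2
    have h3 : (II p).eval c = X ^ p - X := by
      unfold II
      rw [eval_C]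
    rw [h3, ← hGd] at h2
    rw [← h2, hGd, deriv_line, hc']
    ring
  obtain ⟨m, hm⟩ : ∃ m, m = G.rootMultiplicity x₀ := ⟨_, rfl⟩
  have hm1 : 1 ≤ m := by
    rw [hm]
    exact (rootMultiplicity_pos hG).2 hG1
  obtain ⟨Q, hQ, hQn⟩ := exists_eq_pow_rootMultiplicity_mul_and_not_dvd G hG x₀
  rw [← hm] at hQ
  have hQ0 : Q.eval x₀ ≠ 0 := fun h2 => hQn (dvd_iff_isRoot.2 h2)
  have hme : m ≤ e := by
    have h2 : m ≤ G.natDegree := by
      have h3 := natDegree_le_of_dvd (pow_rootMultiplicity_dvd G x₀) hG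
      rwa [natDegree_pow, natDegree_X_sub_C, mul_one, ← hm] at h3
    omega
  obtain ⟨t, ht'⟩ : (X - C x₀) ∣ (X ^ p - X : (ZMod p)[X]) := dvd_iff_isRoot.2 (xp_eval p x₀)
  have htx : t.eval x₀ = -1 := by
    have h2 := congrArg (fun P => (Polynomial.derivative P).eval x₀) ht'
    simp only [derivative_sub, derivative_X_pow, derivative_X, derivative_mul, derivative_C, CharP.cast_eq_zero,
      eval_sub, eval_add, eval_mul, eval_X, eval_C, eval_one, eval_zero, map_zero, zero_mul, zero_sub, sub_zero,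
      sub_self, one_mul, add_zero] at h2
    exact h2.symm.trans (by rw [eval_neg, eval_one])
  obtain ⟨m', rfl⟩ : ∃ m', m = m' + 1 := ⟨m - 1, by omega⟩
  have hkey : t * (((m' + 1 : ℕ) : (ZMod p)[X]) * Q + (X - C x₀) * Polynomial.derivative Q) = Q * r.eval c := by
    have h2 : (X - C x₀ : (ZMod p)[X]) ^ (m' + 1) ≠ 0 := pow_ne_zero _ (X_sub_C_ne_zero x₀)
    apply mul_left_cancel₀ h2
    have h3 := hmain
    rw [hQ, ht', derivative_mul, derivative_X_sub_C_pow] at h3
    rw [Nat.add_sub_cancel] at h3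
    simp only [C_eq_natCast] at h3
    linear_combination h3
  have h2 := congrArg (eval x₀) hkey
  rw [eval_mul, eval_mul, eval_add, eval_mul, eval_mul, eval_sub, eval_X, eval_C, sub_self, zero_mul, add_zero, htx,
    evalEval_line, hcx, hr, eval_natCast] at h2
  have h3 : ((m' : ℕ) : ZMod p) = 0 := by
    have h4 : ((m' : ℕ) : ZMod p) * Q.eval x₀ = 0 := by
      push_cast at h2
      linear_combination -h2
    rcases mul_eq_zero.1 h4 with h5 | h5
    · exact h5
    · exact absurd h5 hQ0
  have h4 : m' = 0 := by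
    rw [ZMod.natCast_eq_zero_iff] at h3
    exact Nat.eq_zero_of_dvd_of_lt h3 (by omega)
  subst h4
  rw [hQ, zero_add, pow_one, derivative_mul, derivative_X_sub_C, eval_add, eval_mul, eval_mul, eval_sub, eval_X,
    eval_C, sub_self, zero_mul, add_zero, eval_one, one_mul] at hG2
  exact hQ0 hG2

end Pool.Agent.H61.WC
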