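import Mathlib

/-!
# [H61 WC Nro] THEOREM W (MP_187c26_nt), combinatorial half: one line which is not a row (think 1607 (C))

`s` an integral function on `ZMod p`, `b ^ j s_j Q(j) = N(j)` mod `p` (`j.val` in `[0, p)`) for polynomials `N ≠ 0`, `Q ≠ 0` of degree `≤ K`, `M K ≤ p`. Then `K ∑_(Q(j) ≠ 0) s_j ^ 2 > E p ^ 2`. (`M` depends on `b` and `E` only.)

PROOF. Suppose not; `y := p / K` (so `K y ≤ p < K (y + 1)`), `y ≥ M`. `J = {j < p : Q(j) ≠ 0}`, at least `p - K` elements. (Work with `j : ℕ`, `j < p`, `s (j : ZMod p)`.)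
(C1) COLLISIONS. `H := Nat.sqrt (8 E (y + 1)) + 1`, so `K H ^ 2 ≥ 8 E p`, so at most `p / 8` of the `j` in `J` have `|s_j| > H`; `G` := the others, `4 |G| ≥ 3 p`. `T := 4 (2 H + 1)`. The pairs `(j / T, s_j)`, `j ∈ G`, are in a set of
`(p / T + 1) (2 H + 1) ≤ p / 4 + 2 H + 1` elements. The elements of `G` which are not the smallest one in their class give different pairs (smallest element `r` of the class, `h = j - r`), `1 ≤ h < T`, `r, r + h ∈ G`, `s_(r+h) = s_r`.
If every `h` had at most `2 K` values `r`, then `3 p / 4 ≤ p / 4 + 2 H + 1 + 2 K T`, so `p / 2 ≤ (2 H + 1) (8 K + 1) ≤ 9 K (2 H + 1)`, so `y ≤ 18 (2 H + 1) + 1`: false for `y ≥ M` (`H` is about `sqrt (8 E y)`).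
So there is `h`, `1 ≤ h < T < p`, with more than `2 K` values `r`, `r + h < p`, `Q(r) ≠ 0`, `Q(r + h) ≠ 0`, `s_(r+h) = s_r`.
(C2) `N(r + h) Q(r) = b ^ h N(r) Q(r + h)` for these `r`, and both sides are polynomials in `r` of degree `≤ 2 K` : `N(X + h) Q(X) = b ^ h N(X) Q(X + h)` in `F_p[X]`. By induction on `t`, cancelling `Q(X + t h)`:
`N(X + t h) Q(X) = b ^ (t h) N(X) Q(X + t h)`. `t = p`: `b ^ (p h) = 1`, `b ^ p = b` in `ZMod p`: `b ^ h = 1`. So `N(x + z) Q(x) = N(x) Q(x + z)` for all `x, z` in `ZMod p` (`h` is invertible). Take `x` with `Q(x) ≠ 0` (`K < p`): `N(z) = c Q(z)` for all `z`,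
`c = N(x) / Q(x) ≠ 0` (otherwise `N = 0`, as `K < p`).
(C3) So `b ^ j s_j = c` mod `p` for `j ∈ J`. `W` := the `j < p` not in `J` or with `2 b |s_j| ≥ p`: at most `K + 4 b ^ 2 E` elements (`K ∑ ≤ E p ^ 2`). For `j`, `j + 1` both not in `W` : `s_j - b s_(j+1) = 0` mod `p` and in absolute value `< p`,
so `s_j = b s_(j+1)`; `s_j ≠ 0`. Take `r := Nat.log 2 (2 E (y + 1)) + 1`, so `b ^ (2 r) ≥ 2 ^ r > 2 E (y + 1)`. If `j, j+1, .., j + r < p` are all not in `W`: `|s_j| = b ^ r |s_(j+r)| ≥ b ^ r`. The number of the `j < p` for which this fails is at most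
`r + (r + 1) (K + 4 b ^ 2 E) ≤ (r + 1) K (2 + 4 b ^ 2 E) ≤ p / 2` (as `2 (r + 1) (2 + 4 b ^ 2 E) ≤ y` for `y ≥ M`). So `K ∑ ≥ K (p / 2) b ^ (2 r) > K (p / 2) 2 E (y + 1) ≥ E p ^ 2`. Contradiction.
-/

set_option autoImplicit false

open Polynomial

namespace Pool.Agent.H61.WC

/-! ### counting in `ZMod p` -/

private theorem nr_inj {p : ℕ} [Fact p.Prime] {A : Finset ℕ} (hA : ∀ j ∈ A, j < p) :
    Set.InjOn (fun j : ℕ => (j : ZMod p)) (A : Set ℕ) := by
  intro i hi j hj h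
  have h1 := congrArg ZMod.val h
  simp only at h1
  rw [ZMod.val_natCast_of_lt (hA i hi), ZMod.val_natCast_of_lt (hA j hj)] at h1
  exact h1

private theorem nr_zero {p : ℕ} [Fact p.Prime] {A : Finset ℕ} (hA : ∀ j ∈ A, j < p)
    (P : (ZMod p)[X]) (hP : ∀ j ∈ A, P.eval (j : ZMod p) = 0) (hc : P.natDegree < A.card) :
    P = 0 := by
  classical
  refine Polynomial.eq_zero_of_natDegree_lt_card_of_eval_eq_zero' P
    (A.image fun j : ℕ => (j : ZMod p)) ?_ ?_
  · intro i hi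
    obtain ⟨j, hj, rfl⟩ := Finset.mem_image.1 hi
    exact hP j hj
  · rw [Finset.card_image_of_injOn (nr_inj hA)]
    exact hc

private theorem nr_sum {p : ℕ} [Fact p.Prime] (s : ZMod p → ℤ) (Q : (ZMod p)[X]) {A : Finset ℕ}
    (hA : ∀ j ∈ A, j < p ∧ Q.eval (j : ZMod p) ≠ 0) (t c : ℤ) (hc : 0 ≤ c)
    (ht : ∀ j ∈ A, t ≤ c * (s (j : ZMod p)) ^ 2) : (A.card : ℤ) * t ≤
      c * ∑ j ∈ Finset.univ.filter (fun j : ZMod p => Q.eval j ≠ 0), (s j) ^ 2 := by
  classical
  have h1 : ∑ j ∈ A.image (fun j : ℕ => (j : ZMod p)), c * (s j) ^ 2 =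
      ∑ j ∈ A, c * (s (j : ZMod p)) ^ 2 := Finset.sum_image (nr_inj fun j hj => (hA j hj).1)
  have h2 := Finset.card_nsmul_le_sum A (fun j => c * (s (j : ZMod p)) ^ 2) t ht
  rw [nsmul_eq_mul] at h2
  rw [Finset.mul_sum]
  refine h2.trans (h1.symm.le.trans ?_)
  refine Finset.sum_le_sum_of_subset_of_nonneg ?_ fun _ _ _ => mul_nonneg hc (sq_nonneg _)
  intro i hi
  obtain ⟨j, hj, rfl⟩ := Finset.mem_image.1 hi
  exact Finset.mem_filter.2 ⟨Finset.mem_univ _, (hA j hj).2⟩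

/-! ### (C1) collisions -/

private theorem nr_coll {p K H : ℕ} (hK : 1 ≤ K) (σ : ℕ → ℤ) (G : Finset ℕ)
    (hG : ∀ j ∈ G, j < p ∧ |σ j| ≤ H) (hcard : 3 * p ≤ 4 * G.card)
    (hbig : 18 * K * (2 * H + 1) < p) : ∃ h, 1 ≤ h ∧ h < 4 * (2 * H + 1) ∧
      2 * K < (G.filter (fun r => r + h ∈ G ∧ σ (r + h) = σ r)).card := by
  classical
  obtain ⟨T, hT⟩ : ∃ T, T = 4 * (2 * H + 1) := ⟨_, rfl⟩
  have hT0 : 0 < T := by omega
  by_contra hcon
  rw [← hT] at hcon
  push Not at hcon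
  obtain ⟨A, hA⟩ : ∃ A, A = G.filter (fun j => ∃ r ∈ G, r < j ∧ r / T = j / T ∧ σ r = σ j) :=
    ⟨_, rfl⟩
  obtain ⟨B, hB⟩ : ∃ B, B = G.filter (fun j => ¬ ∃ r ∈ G, r < j ∧ r / T = j / T ∧ σ r = σ j) :=
    ⟨_, rfl⟩
  have hAB : A.card + B.card = G.card := by
    rw [hA, hB]
    exact Finset.card_filter_add_card_filter_not _
  have hBc : B.card ≤ (p / T + 1) * (2 * H + 1) := by
    have h1 : B.card ≤ (Finset.range (p / T + 1) ×ˢ Finset.Icc (-(H : ℤ)) H).card := by
      refine Finset.card_le_card_of_injOn (fun j => (j / T, σ j)) ?_ ?_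
      · intro j hj
        have hj' : j ∈ G := by
          rw [hB] at hj
          exact (Finset.mem_filter.1 hj).1
        obtain ⟨g1, g2⟩ := hG j hj'
        rw [abs_le] at g2
        rw [Finset.mem_coe, Finset.mem_product, Finset.mem_range, Finset.mem_Icc]
        exact ⟨Nat.lt_succ_of_le (Nat.div_le_div_right g1.le), g2⟩
      · intro i hi j hj hij
        rw [Prod.mk.injEq] at hij
        have hi' := hi
        have hj' := hj
        rw [hB, Finset.mem_coe, Finset.mem_filter] at hi' hj'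
        rcases lt_trichotomy i j with h | h | h
        · exact absurd ⟨i, hi'.1, h, hij.1, hij.2⟩ hj'.2
        · exact h
        · exact absurd ⟨j, hj'.1, h, hij.1.symm, hij.2.symm⟩ hi'.2
    rw [Finset.card_product, Finset.card_range, Int.card_Icc] at h1
    have h2 : ((H : ℤ) + 1 - -(H : ℤ)).toNat = 2 * H + 1 := by omega
    rw [h2] at h1
    exact h1
  have hAc : A.card ≤ T * (2 * K) := by
    have h1 : A ⊆ (Finset.Ico 1 T).biUnion (fun h =>
        (G.filter (fun r => r + h ∈ G ∧ σ (r + h) = σ r)).image (fun r => r + h)) := by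
      intro j hj
      rw [hA, Finset.mem_filter] at hj
      obtain ⟨hj1, r, hr, hrj, hd, hs⟩ := hj
      have h3 : j - r < T := by
        have e1 := Nat.div_add_mod r T
        have e2 := Nat.div_add_mod j T
        have e3 := Nat.mod_lt j hT0
        rw [hd] at e1
        omega
      rw [Finset.mem_biUnion]
      refine ⟨j - r, Finset.mem_Ico.2 ⟨by omega, h3⟩, Finset.mem_image.2 ⟨r, ?_, by omega⟩⟩
      have e : r + (j - r) = j := by omega
      rw [Finset.mem_filter, e]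
      exact ⟨hr, hj1, hs.symm⟩
    refine (Finset.card_le_card h1).trans (Finset.card_biUnion_le.trans ?_)
    calc ∑ h ∈ Finset.Ico 1 T, ((G.filter (fun r => r + h ∈ G ∧ σ (r + h) = σ r)).image
          (fun r => r + h)).card ≤ ∑ _h ∈ Finset.Ico 1 T, 2 * K := by
          refine Finset.sum_le_sum fun h hh => ?_
          rw [Finset.mem_Ico] at hh
          exact Finset.card_image_le.trans (hcon h hh.1 hh.2)
      _ = (T - 1) * (2 * K) := by rw [Finset.sum_const, Nat.card_Ico, smul_eq_mul]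
      _ ≤ T * (2 * K) := Nat.mul_le_mul_right _ (Nat.sub_le _ _)
  have h5 : p / T * T ≤ p := Nat.div_mul_le_self p T
  have h6 : 4 * ((p / T + 1) * (2 * H + 1)) = p / T * T + 4 * (2 * H + 1) := by
    rw [hT]
    ring
  have h7 : 3 * p ≤ p + 4 * (2 * H + 1) + 4 * (T * (2 * K)) := by omega
  rw [hT] at h7
  nlinarith

/-! ### (C2) the polynomial identity -/

private theorem nr_poly {p b K h : ℕ} [Fact p.Prime] {Q N : (ZMod p)[X]}
    (hQ0 : Q ≠ 0) (hN0 : N ≠ 0) (hQ : Q.natDegree ≤ K) (hN : N.natDegree ≤ K) (hKp : K < p)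
    (h1 : 1 ≤ h) (h2 : h < p)
    (hid : taylor (h : ZMod p) N * Q = C ((b : ZMod p) ^ h) * N * taylor (h : ZMod p) Q) :
    ∃ c : ZMod p, c ≠ 0 ∧ ∀ w, N.eval w = c * Q.eval w := by
  have hit : ∀ t : ℕ, taylor ((t * h : ℕ) : ZMod p) N * Q =
      C ((b : ZMod p) ^ (h * t)) * N * taylor ((t * h : ℕ) : ZMod p) Q := by
    intro t
    induction t with
    | zero => simp
    | succ t ih =>
      have e1 := congrArg (taylor ((t * h : ℕ) : ZMod p)) hid
      rw [taylor_mul, taylor_mul, taylor_mul, taylor_C, taylor_taylor, taylor_taylor] at e1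
      have e2 : ((t * h : ℕ) : ZMod p) + (h : ZMod p) = (((t + 1) * h : ℕ) : ZMod p) := by
        push_cast
        ring
      rw [e2] at e1
      have hne : taylor ((t * h : ℕ) : ZMod p) Q ≠ 0 := by
        rw [Ne, taylor_eq_zero]
        exact hQ0
      apply mul_right_cancel₀ hne
      have e3 : C ((b : ZMod p) ^ (h * (t + 1))) =
          C ((b : ZMod p) ^ h) * C ((b : ZMod p) ^ (h * t)) := by
        rw [← C_mul, ← pow_add]
        congr 2
        ring
      rw [e3]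
      linear_combination Q * e1 + C ((b : ZMod p) ^ h) * taylor (((t + 1) * h : ℕ) : ZMod p) Q * ih
  have hbh : (b : ZMod p) ^ h = 1 := by
    have e1 := hit p
    have e2 : ((p * h : ℕ) : ZMod p) = 0 := by
      push_cast
      rw [ZMod.natCast_self, zero_mul]
    rw [e2, taylor_zero, taylor_zero] at e1
    have e3 : C ((b : ZMod p) ^ (h * p)) = 1 := by
      have h3 : (C ((b : ZMod p) ^ (h * p)) - 1) * (N * Q) = 0 := by
        linear_combination -e1
      rcases mul_eq_zero.1 h3 with h4 | h4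
      · exact sub_eq_zero.1 h4
      · exact absurd h4 (mul_ne_zero hN0 hQ0)
    have e4 : (b : ZMod p) ^ (h * p) = 1 := by
      have := congrArg (fun P : (ZMod p)[X] => P.eval 0) e3
      simp only [eval_C, eval_one] at this
      exact this
    rwa [pow_mul, ZMod.pow_card] at e4
  have hh0 : (h : ZMod p) ≠ 0 := by
    intro h0
    rw [ZMod.natCast_eq_zero_iff] at h0
    exact absurd (Nat.le_of_dvd h1 h0) (by omega)
  have hev : ∀ x w : ZMod p, N.eval w * Q.eval x = N.eval x * Q.eval w := by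
    intro x w
    have e1 := congrArg (fun P : (ZMod p)[X] => P.eval x) (hit (((w - x) / h).val))
    simp only [eval_mul, taylor_eval, eval_C] at e1
    rw [pow_mul, hbh, one_pow, one_mul] at e1
    have e2 : x + (((((w - x) / h).val) * h : ℕ) : ZMod p) = w := by
      push_cast
      rw [ZMod.natCast_zmod_val, div_mul_cancel₀ _ hh0]
      ring
    rw [e2] at e1
    exact e1
  have hx : ∃ x : ZMod p, Q.eval x ≠ 0 := by
    by_contra hno
    push Not at hno
    apply hQ0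
    refine nr_zero (A := Finset.range p) (fun j hj => Finset.mem_range.1 hj) Q
      (fun j _ => hno _) ?_
    rw [Finset.card_range]
    omega
  obtain ⟨x, hx⟩ := hx
  have hc : ∀ w, N.eval w = N.eval x / Q.eval x * Q.eval w := by
    intro w
    rw [div_mul_eq_mul_div, eq_div_iff hx]
    exact hev x w
  refine ⟨N.eval x / Q.eval x, ?_, hc⟩
  intro h0
  apply hN0
  refine nr_zero (A := Finset.range p) (fun j hj => Finset.mem_range.1 hj) N (fun j _ => ?_) ?_
  · rw [hc, h0, zero_mul]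
  · rw [Finset.card_range]
    omega

/-! ### (C3) windows -/

private theorem nr_win {p b : ℕ} (σ : ℕ → ℤ) (W : Finset ℕ)
    (hst : ∀ j, j + 1 < p → j ∉ W → j + 1 ∉ W → σ j = b * σ (j + 1))
    (hnz : ∀ j, j < p → j ∉ W → σ j ≠ 0) (r : ℕ) : ∀ j, j + r < p → (∀ i ≤ r, j + i ∉ W) →
      (b : ℤ) ^ r ≤ |σ j| := by
  induction r with
  | zero =>
    intro j hj hW
    rw [pow_zero]
    exact Int.one_le_abs (hnz j (by omega) (hW 0 le_rfl))
  | succ r ih =>
    intro j hj hW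
    have h1 := hst j (by omega) (hW 0 (by omega)) (hW 1 (by omega))
    have h2 := ih (j + 1) (by omega) (fun i hi => by
      have := hW (i + 1) (by omega)
      rwa [show j + (i + 1) = j + 1 + i by ring] at this)
    rw [h1, abs_mul, pow_succ', Nat.abs_cast]
    exact mul_le_mul_of_nonneg_left h2 (Nat.cast_nonneg _)

private theorem nr_good (p r : ℕ) (W : Finset ℕ) : p ≤
    ((Finset.range p).filter (fun j => j + r < p ∧ ∀ i ≤ r, j + i ∉ W)).card + r +
      (r + 1) * W.card := by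
  classical
  have h1 : Finset.range p ⊆
      (Finset.range p).filter (fun j => j + r < p ∧ ∀ i ≤ r, j + i ∉ W) ∪
      Finset.Ico (p - r) p ∪ (Finset.range (r + 1)).biUnion (fun i => W.image (fun w => w - i)) := by
    intro j hj
    rw [Finset.mem_range] at hj
    rw [Finset.mem_union, Finset.mem_union]
    by_cases h2 : j + r < p
    · by_cases h3 : ∀ i ≤ r, j + i ∉ W
      · exact Or.inl (Or.inl (Finset.mem_filter.2 ⟨Finset.mem_range.2 hj, h2, h3⟩))
      · push Not at h3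
        obtain ⟨i, hi, hW⟩ := h3
        refine Or.inr (Finset.mem_biUnion.2 ⟨i, Finset.mem_range.2 (by omega),
          Finset.mem_image.2 ⟨j + i, hW, by omega⟩⟩)
    · exact Or.inl (Or.inr (Finset.mem_Ico.2 ⟨by omega, hj⟩))
  have h2 := Finset.card_le_card h1
  rw [Finset.card_range] at h2
  have h3 : (Finset.Ico (p - r) p).card ≤ r := by
    rw [Nat.card_Ico]
    omega
  have h4 : ((Finset.range (r + 1)).biUnion (fun i => W.image (fun w => w - i))).card ≤
      (r + 1) * W.card := by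
    refine Finset.card_biUnion_le.trans ?_
    calc ∑ i ∈ Finset.range (r + 1), (W.image (fun w => w - i)).card
        ≤ ∑ _i ∈ Finset.range (r + 1), W.card := Finset.sum_le_sum fun i _ => Finset.card_image_le
      _ = (r + 1) * W.card := by rw [Finset.sum_const, Finset.card_range, smul_eq_mul]
  have h5 := Finset.card_union_le ((Finset.range p).filter
    (fun j => j + r < p ∧ ∀ i ≤ r, j + i ∉ W) ∪ Finset.Ico (p - r) p)
    ((Finset.range (r + 1)).biUnion (fun i => W.image (fun w => w - i)))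
  have h6 := Finset.card_union_le ((Finset.range p).filter
    (fun j => j + r < p ∧ ∀ i ≤ r, j + i ∉ W)) (Finset.Ico (p - r) p)
  omega

/-! ### numerical facts -/

private theorem nr_two (m : ℕ) : 2 * m + 1 ≤ 2 ^ (m + 1) ∧ m ^ 2 ≤ 2 ^ (m + 1) := by
  induction m with
  | zero => norm_num
  | succ m ih =>
    obtain ⟨h1, h2⟩ := ih
    have e : 2 ^ (m + 1 + 1) = 2 ^ (m + 1) + 2 ^ (m + 1) := by ring
    have h3 : 2 ≤ 2 ^ (m + 1) := by
      calc 2 = 2 ^ 1 := by norm_num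
        _ ≤ 2 ^ (m + 1) := Nat.pow_le_pow_right (by norm_num) (by omega)
    rw [e]
    constructor
    · omega
    · nlinarith

private theorem nr_num1 {E y H : ℕ} (hE : 1 ≤ E) (hy : 100000 * E ≤ y)
    (hH : H * H ≤ 8 * E * (y + 1)) : 18 * (2 * (H + 1) + 1) < y := by
  by_contra hcon
  push Not at hcon
  have h1 : y ≤ 36 * H + 54 := by omega
  have hy1 : 100000 ≤ y := by nlinarith
  have h2 : y ≤ 37 * H := by
    have : 2000 ≤ H := by omega
    omega
  have h3 : y * y ≤ 37 * H * (37 * H) := Nat.mul_le_mul h2 h2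
  have h4 : y * y ≤ 1369 * (8 * E * (y + 1)) := by nlinarith
  have h5 : 100000 * E * y ≤ y * y := Nat.mul_le_mul_right y hy
  have h6 : E * (y + 1) ≤ E * (2 * y) := Nat.mul_le_mul_left E (by omega)
  have h7 : 0 < E * y := Nat.mul_pos hE (by omega)
  nlinarith

private theorem nr_num2 {E y a m : ℕ} (hE : 1 ≤ E) (ha : 1 ≤ a) (hy : 100000 * E * a ^ 2 ≤ y)
    (hm : m ^ 2 ≤ 4 * E * (y + 1)) : (m + 2) * a ≤ y := by
  by_contra hcon
  push Not at hcon
  have ha2 : 1 ≤ a ^ 2 := Nat.one_le_pow _ _ ha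
  have hEa : 1 ≤ E * a ^ 2 := Nat.mul_pos hE ha2
  have hy1 : 100000 ≤ y := by nlinarith
  have h1 : y * y ≤ (m + 2) * a * ((m + 2) * a) := Nat.mul_le_mul hcon.le hcon.le
  have h2 : (m + 2) * a * ((m + 2) * a) ≤ (2 * m ^ 2 + 8) * a ^ 2 := by
    have : (m + 2) * (m + 2) ≤ 2 * m ^ 2 + 8 := by
      have h3 : 0 ≤ ((m : ℤ) - 2) ^ 2 := sq_nonneg _
      have h4 : ((m : ℤ) + 2) * (m + 2) ≤ 2 * m ^ 2 + 8 := by nlinarith
      exact_mod_cast h4
    calc (m + 2) * a * ((m + 2) * a) = (m + 2) * (m + 2) * a ^ 2 := by ring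
      _ ≤ _ := Nat.mul_le_mul_right _ this
  have h3 : 2 * m ^ 2 + 8 ≤ E * (16 * y + 8) := by nlinarith
  have h4 : y * y ≤ E * (16 * y + 8) * a ^ 2 := h1.trans (h2.trans (Nat.mul_le_mul_right _ h3))
  have h5 : 100000 * E * a ^ 2 * y ≤ y * y := Nat.mul_le_mul_right y hy
  have h6 : E * (16 * y + 8) * a ^ 2 ≤ E * a ^ 2 * (17 * y) := by
    calc E * (16 * y + 8) * a ^ 2 = E * a ^ 2 * (16 * y + 8) := by ring
      _ ≤ _ := Nat.mul_le_mul_left _ (by omega)
  have h7 : 0 < E * a ^ 2 * y := Nat.mul_pos hEa (by omega)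
  nlinarith

theorem wc_nrow (b E : ℕ) (hb : 2 ≤ b) (hE : 1 ≤ E) : ∃ M : ℕ, 1 ≤ M ∧ ∀ (p : ℕ) [Fact p.Prime] (K : ℕ), 1 ≤ K → M * K ≤ p → ¬ p ∣ b →
    ∀ (s : ZMod p → ℤ) (Q N : (ZMod p)[X]), Q.natDegree ≤ K → N.natDegree ≤ K → Q ≠ 0 → N ≠ 0 →
      (∀ j, (b : ZMod p) ^ j.val * (s j : ZMod p) * Q.eval j = N.eval j) →
      (E : ℤ) * (p : ℤ) ^ 2 < (K : ℤ) * ∑ j ∈ Finset.univ.filter (fun j : ZMod p => Q.eval j ≠ 0), (s j) ^ 2 := by
  classical
  obtain ⟨a, ha⟩ : ∃ a, a = 4 + 8 * b ^ 2 * E := ⟨_, rfl⟩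
  have ha1 : 1 ≤ a := by omega
  have ha2 : 1 ≤ a ^ 2 := Nat.one_le_pow _ _ ha1
  refine ⟨100000 * E * a ^ 2, by nlinarith [Nat.mul_pos hE ha2], ?_⟩
  intro p hpf K hK hMK hpb s Q N hQ hN hQ0 hN0 hs
  have hp := hpf.out
  by_contra hcon
  push Not at hcon
  obtain ⟨S, hS⟩ : ∃ S, S = ∑ j ∈ Finset.univ.filter (fun j : ZMod p => Q.eval j ≠ 0),
    (s j) ^ 2 := ⟨_, rfl⟩
  rw [← hS] at hcon
  have hS0 : 0 ≤ S := by
    rw [hS]
    exact Finset.sum_nonneg fun _ _ => sq_nonneg _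
  obtain ⟨y, hy⟩ : ∃ y, y = p / K := ⟨_, rfl⟩
  have hKy : K * y ≤ p := by
    rw [hy]
    exact Nat.mul_div_le p K
  have hKy1 : p < K * (y + 1) := by
    rw [hy]
    exact Nat.lt_mul_div_succ p hK
  have hMy : 100000 * E * a ^ 2 ≤ y := by
    rw [hy, Nat.le_div_iff_mul_le hK]
    exact hMK
  have hy5 : 100000 * E ≤ y := by
    refine le_trans ?_ hMy
    exact Nat.le_mul_of_pos_right _ ha2
  have hy1 : 100000 ≤ y := le_trans (by omega) hy5
  have hKp : 100000 * K ≤ p := by nlinarith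
  have hKlt : K < p := by omega
  have hp0 : (0 : ℤ) < p := by exact_mod_cast hp.pos
  -- the zeros of `Q`
  have hZ : ((Finset.range p).filter (fun j : ℕ => Q.eval (j : ZMod p) = 0)).card ≤ K := by
    by_contra hlt
    push Not at hlt
    apply hQ0
    refine nr_zero (A := (Finset.range p).filter (fun j : ℕ => Q.eval (j : ZMod p) = 0)) ?_ Q ?_ ?_
    · intro j hj
      exact Finset.mem_range.1 (Finset.mem_filter.1 hj).1
    · intro j hj
      exact (Finset.mem_filter.1 hj).2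
    · omega
  -- (C1)
  obtain ⟨H', hH'⟩ : ∃ H', H' = Nat.sqrt (8 * E * (y + 1)) := ⟨_, rfl⟩
  have hH1 : H' * H' ≤ 8 * E * (y + 1) := by
    rw [hH']
    exact Nat.sqrt_le _
  have hH2 : 8 * E * (y + 1) < (H' + 1) * (H' + 1) := by
    rw [hH']
    exact Nat.lt_succ_sqrt _
  obtain ⟨H, hH⟩ : ∃ H, H = H' + 1 := ⟨_, rfl⟩
  have hbig : 18 * K * (2 * H + 1) < p := by
    have h1 := nr_num1 hE hy5 hH1
    rw [← hH] at h1
    calc 18 * K * (2 * H + 1) = K * (18 * (2 * H + 1)) := by ring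
      _ < K * y := Nat.mul_lt_mul_of_pos_left h1 hK
      _ ≤ p := hKy
  obtain ⟨G, hG⟩ : ∃ G, G = (Finset.range p).filter
    (fun j : ℕ => Q.eval (j : ZMod p) ≠ 0 ∧ |s (j : ZMod p)| ≤ H) := ⟨_, rfl⟩
  have hGm : ∀ j ∈ G, j < p ∧ |s (j : ZMod p)| ≤ H := by
    intro j hj
    rw [hG, Finset.mem_filter, Finset.mem_range] at hj
    exact ⟨hj.1, hj.2.2⟩
  have hGc : 3 * p ≤ 4 * G.card := by
    obtain ⟨D, hD⟩ : ∃ D, D = (Finset.range p).filter
      (fun j : ℕ => Q.eval (j : ZMod p) ≠ 0 ∧ (H : ℤ) < |s (j : ZMod p)|) := ⟨_, rfl⟩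
    have h1 : Finset.range p ⊆ G ∪ D ∪
        (Finset.range p).filter (fun j : ℕ => Q.eval (j : ZMod p) = 0) := by
      intro j hj
      rw [Finset.mem_union, Finset.mem_union, hG, hD, Finset.mem_filter, Finset.mem_filter,
        Finset.mem_filter]
      by_cases h2 : Q.eval (j : ZMod p) = 0
      · exact Or.inr ⟨hj, h2⟩
      · rcases le_or_gt (|s (j : ZMod p)|) (H : ℤ) with h3 | h3
        · exact Or.inl (Or.inl ⟨hj, h2, h3⟩)
        · exact Or.inl (Or.inr ⟨hj, h2, h3⟩)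
    have h2 := Finset.card_le_card h1
    rw [Finset.card_range] at h2
    have h3 := Finset.card_union_le (G ∪ D)
      ((Finset.range p).filter (fun j : ℕ => Q.eval (j : ZMod p) = 0))
    have h4 := Finset.card_union_le G D
    have h5 := nr_sum s Q (A := D) (fun j hj => by
      rw [hD, Finset.mem_filter, Finset.mem_range] at hj
      exact ⟨hj.1, hj.2.1⟩) ((H : ℤ) ^ 2) 1 zero_le_one (fun j hj => by
      rw [hD, Finset.mem_filter] at hj
      rw [one_mul, ← sq_abs (s (j : ZMod p))]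
      exact pow_le_pow_left₀ (Nat.cast_nonneg _) hj.2.2.le 2)
    rw [one_mul, ← hS] at h5
    have h6 : 8 * D.card ≤ p := by
      have h7 : (8 * E * (y + 1) : ℤ) < (H : ℤ) ^ 2 := by
        rw [hH]
        push_cast
        have : (8 * E * (y + 1) : ℤ) < (H' + 1) * (H' + 1) := by exact_mod_cast hH2
        linarith
      have h8 : (p : ℤ) < K * (y + 1) := by exact_mod_cast hKy1
      have hK0 : (0 : ℤ) < K := by exact_mod_cast hK
      have hE0 : (0 : ℤ) < E := by exact_mod_cast hE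
      have hD0 : (0 : ℤ) ≤ D.card := Nat.cast_nonneg _
      -- `D * 8 E p ≤ D K H ^ 2 ≤ E p ^ 2`
      have h9 : (D.card : ℤ) * (8 * E * p) ≤ E * p ^ 2 := by
        calc (D.card : ℤ) * (8 * E * p) ≤ (D.card : ℤ) * (8 * E * (K * (y + 1))) := by gcongr
          _ = K * ((D.card : ℤ) * (8 * E * (y + 1))) := by ring
          _ ≤ K * ((D.card : ℤ) * (H : ℤ) ^ 2) := by gcongr
          _ ≤ K * S := by gcongr
          _ ≤ _ := hcon
      have h10 : (8 * (D.card : ℤ)) * (E * p) ≤ p * (E * p) := by nlinarith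
      have h11 := le_of_mul_le_mul_right h10 (mul_pos hE0 hp0)
      exact_mod_cast h11
    omega
  obtain ⟨h, hh1, hhT, hR⟩ := nr_coll hK (fun j => s (j : ZMod p)) G hGm hGc hbig
  have hhp : h < p := by
    have : 4 * (2 * H + 1) ≤ 18 * K * (2 * H + 1) := Nat.mul_le_mul_right _ (by omega)
    omega
  -- (C2)
  have hid : taylor (h : ZMod p) N * Q = C ((b : ZMod p) ^ h) * N * taylor (h : ZMod p) Q := by
    rw [← sub_eq_zero]
    refine nr_zero (A := G.filter (fun r => r + h ∈ G ∧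
      s ((r + h : ℕ) : ZMod p) = s ((r : ℕ) : ZMod p))) ?_ _ ?_ ?_
    · intro j hj
      exact (hGm j (Finset.mem_filter.1 hj).1).1
    · intro r hr
      obtain ⟨hr1, hr2, hr3⟩ := Finset.mem_filter.1 hr
      have e1 := hs ((r : ℕ) : ZMod p)
      have e2 := hs ((r + h : ℕ) : ZMod p)
      rw [ZMod.val_natCast_of_lt (hGm r hr1).1] at e1
      rw [ZMod.val_natCast_of_lt (hGm _ hr2).1, hr3] at e2
      have e3 : ((r + h : ℕ) : ZMod p) = (r : ZMod p) + (h : ZMod p) := by push_cast; rfl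
      rw [e3] at e2
      rw [eval_sub, eval_mul, eval_mul, eval_mul, eval_C, taylor_eval, taylor_eval, ← e1, ← e2,
        pow_add]
      ring
    · refine lt_of_le_of_lt ?_ hR
      refine (natDegree_sub_le _ _).trans (max_le ?_ ?_)
      · refine natDegree_mul_le.trans ?_
        rw [natDegree_taylor]
        omega
      · refine natDegree_mul_le.trans ?_
        rw [natDegree_taylor]
        have := natDegree_C_mul_le ((b : ZMod p) ^ h) N
        omega
  obtain ⟨c, hc0, hc⟩ := nr_poly hQ0 hN0 hQ hN hKlt hh1 hhp hid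
  -- (C3)
  have hb0 : (b : ZMod p) ≠ 0 := by
    intro h0
    rw [ZMod.natCast_eq_zero_iff] at h0
    exact hpb h0
  obtain ⟨W, hW⟩ : ∃ W, W = (Finset.range p).filter
    (fun j : ℕ => Q.eval (j : ZMod p) = 0 ∨ (p : ℤ) ≤ 2 * b * |s (j : ZMod p)|) := ⟨_, rfl⟩
  have hWn : ∀ j, j < p → j ∉ W → Q.eval (j : ZMod p) ≠ 0 ∧ 2 * b * |s (j : ZMod p)| < p := by
    intro j hj hjW
    rw [hW, Finset.mem_filter, Finset.mem_range] at hjW
    push Not at hjW
    exact hjW hj
  have hval : ∀ j, j < p → j ∉ W → (b : ZMod p) ^ j * (s (j : ZMod p) : ZMod p) = c := by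
    intro j hj hjW
    have e1 := hs ((j : ℕ) : ZMod p)
    rw [ZMod.val_natCast_of_lt hj, hc] at e1
    exact mul_right_cancel₀ (hWn j hj hjW).1 e1
  have hbz : (2 : ℤ) ≤ b := by exact_mod_cast hb
  have hst : ∀ j, j + 1 < p → j ∉ W → j + 1 ∉ W →
      s ((j : ℕ) : ZMod p) = b * s ((j + 1 : ℕ) : ZMod p) := by
    intro j hj h1 h2
    have e1 := hval j (by omega) h1
    have e2 := hval (j + 1) hj h2
    obtain ⟨-, g1⟩ := hWn j (by omega) h1
    obtain ⟨-, g2⟩ := hWn (j + 1) hj h2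
    have e3 : ((s ((j : ℕ) : ZMod p) - b * s ((j + 1 : ℕ) : ZMod p) : ℤ) : ZMod p) = 0 := by
      have e4 : (b : ZMod p) ^ j *
          ((s ((j : ℕ) : ZMod p) - b * s ((j + 1 : ℕ) : ZMod p) : ℤ) : ZMod p) = 0 := by
        have e5 : (b : ZMod p) ^ (j + 1) * (s ((j + 1 : ℕ) : ZMod p) : ZMod p) =
            (b : ZMod p) ^ j * (b * (s ((j + 1 : ℕ) : ZMod p) : ZMod p)) := by ring
        rw [e5] at e2
        rw [Int.cast_sub, Int.cast_mul, Int.cast_natCast, mul_sub, e1, e2, sub_self]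
      exact (mul_eq_zero.1 e4).resolve_left (pow_ne_zero _ hb0)
    rw [ZMod.intCast_zmod_eq_zero_iff_dvd] at e3
    have e6 := Int.eq_zero_of_abs_lt_dvd e3 (by
      refine lt_of_le_of_lt (abs_sub _ _) ?_
      rw [abs_mul, Nat.abs_cast]
      have h3 := abs_nonneg (s ((j : ℕ) : ZMod p))
      nlinarith)
    linarith
  have hnz : ∀ j, j < p → j ∉ W → s ((j : ℕ) : ZMod p) ≠ 0 := by
    intro j hj h1 h0
    have e1 := hval j hj h1
    rw [h0, Int.cast_zero, mul_zero] at e1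
    exact hc0 e1.symm
  have hK0 : (0 : ℤ) < K := by exact_mod_cast hK
  have hE0 : (0 : ℤ) < E := by exact_mod_cast hE
  have hWc : W.card ≤ K + 4 * b ^ 2 * E := by
    obtain ⟨D, hD⟩ : ∃ D, D = (Finset.range p).filter
      (fun j : ℕ => Q.eval (j : ZMod p) ≠ 0 ∧ (p : ℤ) ≤ 2 * b * |s (j : ZMod p)|) := ⟨_, rfl⟩
    have h1 : W ⊆ (Finset.range p).filter (fun j : ℕ => Q.eval (j : ZMod p) = 0) ∪ D := by
      intro j hj
      rw [hW, Finset.mem_filter] at hj
      rw [Finset.mem_union, hD, Finset.mem_filter, Finset.mem_filter]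
      by_cases h2 : Q.eval (j : ZMod p) = 0
      · exact Or.inl ⟨hj.1, h2⟩
      · exact Or.inr ⟨hj.1, h2, hj.2.resolve_left h2⟩
    have h2 := (Finset.card_le_card h1).trans (Finset.card_union_le _ _)
    have h5 := nr_sum s Q (A := D) (fun j hj => by
      rw [hD, Finset.mem_filter, Finset.mem_range] at hj
      exact ⟨hj.1, hj.2.1⟩) ((p : ℤ) ^ 2) (4 * b ^ 2) (by positivity) (fun j hj => by
      rw [hD, Finset.mem_filter] at hj
      have h6 := pow_le_pow_left₀ hp0.le hj.2.2 2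
      rw [mul_pow, sq_abs] at h6
      refine h6.trans (le_of_eq ?_)
      ring)
    rw [← hS] at h5
    have h6 : (K * D.card : ℤ) * (p : ℤ) ^ 2 ≤ (4 * b ^ 2 * E) * (p : ℤ) ^ 2 := by
      calc (K * D.card : ℤ) * (p : ℤ) ^ 2 = K * ((D.card : ℤ) * (p : ℤ) ^ 2) := by ring
        _ ≤ K * (4 * b ^ 2 * S) := by gcongr
        _ = 4 * b ^ 2 * (K * S) := by ring
        _ ≤ 4 * b ^ 2 * (E * p ^ 2) := by gcongr
        _ = _ := by ring
    have h7 := le_of_mul_le_mul_right h6 (by positivity)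
    have h8 : K * D.card ≤ 4 * b ^ 2 * E := by exact_mod_cast h7
    have h9 : D.card ≤ K * D.card := Nat.le_mul_of_pos_left _ hK
    omega
  obtain ⟨m, hm⟩ : ∃ m, m = Nat.log 2 (2 * E * (y + 1)) := ⟨_, rfl⟩
  have hm1 : 2 ^ m ≤ 2 * E * (y + 1) := by
    rw [hm]
    exact Nat.pow_log_le_self 2 (by positivity)
  have hm2 : 2 * E * (y + 1) < 2 ^ (m + 1) := by
    rw [hm]
    exact Nat.lt_pow_succ_log_self (by norm_num) _
  have hm3 : m ^ 2 ≤ 4 * E * (y + 1) := by
    have h1 := (nr_two m).2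
    have h2 : 2 ^ (m + 1) = 2 * 2 ^ m := by ring
    nlinarith
  have hnum := nr_num2 hE ha1 hMy hm3
  have hgood := nr_good p (m + 1) W
  obtain ⟨g, hg⟩ : ∃ g, g = (Finset.range p).filter
    (fun j => j + (m + 1) < p ∧ ∀ i ≤ m + 1, j + i ∉ W) := ⟨_, rfl⟩
  rw [← hg] at hgood
  have hg2 : p ≤ 2 * g.card := by
    have h1 : 2 * (m + 1 + (m + 1 + 1) * W.card) ≤ p := by
      calc 2 * (m + 1 + (m + 1 + 1) * W.card) ≤ 2 * ((m + 2) * (1 + W.card)) := by nlinarith
        _ ≤ 2 * ((m + 2) * (K * (2 + 4 * b ^ 2 * E))) := by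
            gcongr
            have h2 : 4 * b ^ 2 * E ≤ K * (4 * b ^ 2 * E) := Nat.le_mul_of_pos_left _ hK
            nlinarith
        _ = K * ((m + 2) * a) := by
            rw [ha]
            ring
        _ ≤ K * y := Nat.mul_le_mul_left _ hnum
        _ ≤ p := hKy
    omega
  have h5 := nr_sum s Q (A := g) (fun j hj => by
      rw [hg, Finset.mem_filter, Finset.mem_range] at hj
      exact ⟨hj.1, (hWn j hj.1 (hj.2.2 0 (by omega))).1⟩) ((b : ℤ) ^ (2 * (m + 1))) 1 zero_le_one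
      (fun j hj => by
      rw [hg, Finset.mem_filter, Finset.mem_range] at hj
      have h6 := nr_win (fun j => s ((j : ℕ) : ZMod p)) W hst hnz (m + 1) j hj.2.1 hj.2.2
      rw [one_mul, ← sq_abs (s (j : ZMod p)), mul_comm 2 (m + 1), pow_mul]
      exact pow_le_pow_left₀ (by positivity) h6 2)
  rw [one_mul, ← hS] at h5
  have h6 : (2 * E * (y + 1) : ℤ) < (b : ℤ) ^ (2 * (m + 1)) := by
    have h7 : 2 ^ (m + 1) ≤ b ^ (2 * (m + 1)) :=
      (Nat.pow_le_pow_right (by norm_num) (by omega)).trans (Nat.pow_le_pow_left hb _)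
    have h8 := lt_of_lt_of_le hm2 h7
    exact_mod_cast h8
  have h8 : (p : ℤ) < K * (y + 1) := by exact_mod_cast hKy1
  have hg3 : (p : ℤ) ≤ 2 * g.card := by exact_mod_cast hg2
  have hg0 : (0 : ℤ) ≤ g.card := Nat.cast_nonneg _
  have h9 : (E : ℤ) * p ^ 2 < E * p ^ 2 := by
    calc (E : ℤ) * p ^ 2 = E * p * p := by ring
      _ < E * p * (K * (y + 1)) := mul_lt_mul_of_pos_left h8 (mul_pos hE0 hp0)
      _ = (E * K * (y + 1)) * p := by ring
      _ ≤ (E * K * (y + 1)) * (2 * g.card) := by gcongr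
      _ = K * ((g.card : ℤ) * (2 * E * (y + 1))) := by ring
      _ ≤ K * ((g.card : ℤ) * (b : ℤ) ^ (2 * (m + 1))) := by gcongr
      _ ≤ K * S := by gcongr
      _ ≤ _ := hcon
  exact lt_irrefl _ h9

end Pool.Agent.H61.WC
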