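import Mathlib

/-!
# [H61 WC Row] THEOREM W (MP_187c26_nt), combinatorial half: one row (think 1601 (VIII))

`s` an integral function on `ZMod p` with sum `0`, `s Q = N` mod `p` for polynomials `N ≠ 0`, `Q ≠ 0` of degree `≤ K`, `4 K < p`, `c` the number of the zeros of `Q` in `ZMod p` (`2 c ≤ p` follows).
Then `64 K ^ 2 ∑ s ^ 2 ≥ p ^ 3` or `4 max(1, c) ∑ s ^ 2 ≥ p ^ 2`.

PROOF. Suppose `64 K ^ 2 ∑ s ^ 2 < p ^ 3`. Fewer than `p / 4` of the `i` have `16 K ^ 2 (s i) ^ 2 > p ^ 2` (their sum would be `≥ p ^ 3 / (64 K ^ 2)`). The other more than `3 p / 4` values satisfy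
`4 K |s i| ≤ p`, so they lie in `[-p / (4K), p / (4K)]` (integral division), at most `2 (p / (4 K)) + 1` values; `K (2 (p / (4 K)) + 1) ≤ p / 2 + K < 3 p / 4`: so one value `v` is taken more than `K` times
(`Finset.exists_lt_card_fiber_of_mul_lt_card_of_maps_to`). `N - v Q` has degree `≤ K` and more than `K` zeros: `N = v Q`, `v ≠ 0` mod `p` (as `N ≠ 0`), `s i = v` mod `p` if `Q i ≠ 0`, `4 |v| ≤ p`.
(A) Some `i` with `Q i ≠ 0`, `s i ≠ v`: `|s i| ≥ p - |v| ≥ 3 p / 4`: `4 ∑ s ^ 2 ≥ p ^ 2`. (B) Otherwise the sum of the `s i` over the `c` zeros of `Q` is `- v (p - c)` (`c ≤ K`); not `0`, so `c ≥ 1`; by Cauchy-Schwarz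
(`sq_sum_le_card_mul_sum_sq`) `c ∑ s ^ 2 ≥ v ^ 2 (p - c) ^ 2 ≥ (p / 2) ^ 2`.
-/

set_option autoImplicit false

open Polynomial

namespace Pool.Agent.H61.WC

theorem wc_row (p : ℕ) [Fact p.Prime] (K : ℕ) (hK : 1 ≤ K) (hKp : 4 * K < p) (s : ZMod p → ℤ) (hs : ∑ i, s i = 0)
    (Q N : (ZMod p)[X]) (hQ : Q.natDegree ≤ K) (hN : N.natDegree ≤ K) (hQ0 : Q ≠ 0) (hN0 : N ≠ 0)
    (h : ∀ i, (s i : ZMod p) * Q.eval i = N.eval i) :
    (p : ℤ) ^ 3 ≤ 64 * (K : ℤ) ^ 2 * ∑ i, (s i) ^ 2 ∨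
      (p : ℤ) ^ 2 ≤ 4 * (max 1 (Finset.univ.filter fun i : ZMod p => Q.eval i = 0).card : ℕ) * ∑ i, (s i) ^ 2 := by
  classical
  rcases le_or_gt ((p : ℤ) ^ 3) (64 * (K : ℤ) ^ 2 * ∑ i, (s i) ^ 2) with hcase | hcase
  · exact Or.inl hcase
  right
  have hpp : p.Prime := Fact.out
  have hp0 : (0 : ℤ) < p := by exact_mod_cast hpp.pos
  have hK0 : (1 : ℤ) ≤ K := by exact_mod_cast hK
  have hKp' : 4 * (K : ℤ) < p := by exact_mod_cast hKp
  obtain ⟨T, hT⟩ : ∃ T : ℤ, T = ∑ i, (s i) ^ 2 := ⟨_, rfl⟩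
  rw [← hT] at hcase ⊢
  have hT0 : 0 ≤ T := by rw [hT]; exact Finset.sum_nonneg fun i _ => sq_nonneg _
  obtain ⟨A, hA⟩ : ∃ A : Finset (ZMod p), A = Finset.univ.filter fun i => (p : ℤ) ^ 2 < 16 * (K : ℤ) ^ 2 * (s i) ^ 2 :=
    ⟨_, rfl⟩
  obtain ⟨G, hG⟩ : ∃ G : Finset (ZMod p), G = Finset.univ.filter fun i => ¬ (p : ℤ) ^ 2 < 16 * (K : ℤ) ^ 2 * (s i) ^ 2 :=
    ⟨_, rfl⟩
  have hAG : A.card + G.card = p := by
    rw [hA, hG, Finset.card_filter_add_card_filter_not, Finset.card_univ, ZMod.card]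
  have hA4 : 4 * (A.card : ℤ) < p := by
    have h1 : (A.card : ℤ) * (p : ℤ) ^ 2 ≤ 16 * (K : ℤ) ^ 2 * T := by
      rw [hT, Finset.mul_sum]
      calc (A.card : ℤ) * (p : ℤ) ^ 2 = ∑ _i ∈ A, (p : ℤ) ^ 2 := by rw [Finset.sum_const, nsmul_eq_mul]
        _ ≤ ∑ i ∈ A, 16 * (K : ℤ) ^ 2 * (s i) ^ 2 := by
            refine Finset.sum_le_sum fun i hi => ?_
            rw [hA, Finset.mem_filter] at hi
            exact hi.2.le
        _ ≤ ∑ i, 16 * (K : ℤ) ^ 2 * (s i) ^ 2 :=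
            Finset.sum_le_sum_of_subset_of_nonneg (Finset.subset_univ _) fun i _ _ => by positivity
    have h2 : 4 * (A.card : ℤ) * (p : ℤ) ^ 2 < p * (p : ℤ) ^ 2 := by nlinarith
    exact lt_of_mul_lt_mul_right h2 (by positivity)
  obtain ⟨B, hB⟩ : ∃ B : ℕ, B = p / (4 * K) := ⟨_, rfl⟩
  have hB1 : 4 * K * B ≤ p := by rw [hB]; exact Nat.mul_div_le _ _
  have hmaps : ∀ i ∈ G, s i ∈ Finset.Icc (-(B : ℤ)) (B : ℤ) := by
    intro i hi
    rw [hG, Finset.mem_filter] at hi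
    have h1 : 16 * (K : ℤ) ^ 2 * (s i) ^ 2 ≤ (p : ℤ) ^ 2 := not_lt.1 hi.2
    have h2 : (4 * (K : ℤ) * |s i|) ^ 2 ≤ (p : ℤ) ^ 2 := by
      rw [mul_pow, sq_abs]
      linarith
    have h3 : 4 * (K : ℤ) * |s i| ≤ p := (pow_le_pow_iff_left₀ (by positivity) hp0.le two_ne_zero).1 h2
    have h4 : (s i).natAbs ≤ B := by
      rw [hB, Nat.le_div_iff_mul_le (by omega)]
      have h5 : ((s i).natAbs : ℤ) = |s i| := Int.natCast_natAbs _
      zify
      skip
      linarith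
    rw [Finset.mem_Icc]
    have h5 : |s i| ≤ B := by
      rw [← Int.natCast_natAbs]
      exact_mod_cast h4
    exact abs_le.1 h5
  have hcard : (Finset.Icc (-(B : ℤ)) (B : ℤ)).card * K < G.card := by
    have h1 : (Finset.Icc (-(B : ℤ)) (B : ℤ)).card = 2 * B + 1 := by
      rw [Int.card_Icc]
      omega
    rw [h1]
    have h2 : 4 * A.card < p := by exact_mod_cast hA4
    have h3 : (2 * B + 1) * K * 4 = 2 * (4 * K * B) + 4 * K := by ring
    omega
  obtain ⟨v, hv, hvK⟩ := Finset.exists_lt_card_fiber_of_mul_lt_card_of_maps_to hmaps hcard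
  rw [Finset.mem_Icc] at hv
  -- the polynomial identity
  have hNQ : N = C ((v : ℤ) : ZMod p) * Q := by
    have h0 : N - C ((v : ℤ) : ZMod p) * Q = 0 := by
      by_contra hne
      have h1 : (N - C ((v : ℤ) : ZMod p) * Q).natDegree ≤ K := by
        refine (natDegree_sub_le _ _).trans (max_le hN ?_)
        exact (natDegree_C_mul_le _ _).trans hQ
      have h2 : (G.filter fun x => s x = v) ⊆ (N - C ((v : ℤ) : ZMod p) * Q).roots.toFinset := by
        intro i hi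
        rw [Finset.mem_filter] at hi
        rw [Multiset.mem_toFinset, mem_roots hne, IsRoot.def, eval_sub, eval_mul, eval_C, ← h i, hi.2,
          sub_self]
      have h3 := Finset.card_le_card h2
      have h4 := Multiset.toFinset_card_le (N - C ((v : ℤ) : ZMod p) * Q).roots
      have h5 := card_roots' (N - C ((v : ℤ) : ZMod p) * Q)
      omega
    exact sub_eq_zero.1 h0
  have hv0 : ((v : ℤ) : ZMod p) ≠ 0 := by
    intro h0
    apply hN0
    rw [hNQ, h0, map_zero, zero_mul]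
  have hvne : v ≠ 0 := by
    rintro rfl
    exact hv0 (by push_cast; rfl)
  have hv4 : 4 * |v| ≤ (p : ℤ) := by
    have h1 : |v| ≤ B := abs_le.2 hv
    have h2 : 4 * (K : ℤ) * B ≤ p := by exact_mod_cast hB1
    have h3 : (0 : ℤ) ≤ B := Int.natCast_nonneg _
    nlinarith
  obtain ⟨Z, hZ⟩ : ∃ Z : Finset (ZMod p), Z = Finset.univ.filter fun i : ZMod p => Q.eval i = 0 := ⟨_, rfl⟩
  rw [← hZ]
  have hmod : ∀ i, Q.eval i ≠ 0 → (p : ℤ) ∣ s i - v := by
    intro i hi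
    have h1 := h i
    rw [hNQ, eval_mul, eval_C] at h1
    have h2 := mul_right_cancel₀ hi h1
    rw [← ZMod.intCast_eq_intCast_iff_dvd_sub] at *
    exact h2.symm
  have hmax : (1 : ℤ) ≤ ((max 1 Z.card : ℕ) : ℤ) := by exact_mod_cast le_max_left _ _
  by_cases hex : ∃ i, Q.eval i ≠ 0 ∧ s i ≠ v
  · obtain ⟨i, hi, hiv⟩ := hex
    obtain ⟨t, ht⟩ := hmod i hi
    have ht0 : t ≠ 0 := by
      rintro rfl
      apply hiv
      linarith
    have h1 : (p : ℤ) ≤ |s i - v| := by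
      rw [ht, abs_mul, abs_of_pos hp0]
      have : 1 ≤ |t| := Int.one_le_abs ht0
      nlinarith
    have h2 : |s i - v| ≤ |s i| + |v| := abs_sub _ _
    have h3 : 3 * (p : ℤ) ≤ 4 * |s i| := by linarith
    have h4 : (s i) ^ 2 ≤ T := by
      rw [hT]
      exact Finset.single_le_sum (f := fun i => (s i) ^ 2) (fun i _ => sq_nonneg _) (Finset.mem_univ i)
    have h5 : (s i) ^ 2 = |s i| ^ 2 := (sq_abs _).symm
    have h6 : (p : ℤ) ^ 2 ≤ 4 * T := by nlinarith
    calc (p : ℤ) ^ 2 ≤ 4 * T := h6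
      _ ≤ 4 * ((max 1 Z.card : ℕ) : ℤ) * T := by nlinarith
  · push Not at hex
    have hZc : Z.card ≤ K := by
      have h2 : Z ⊆ Q.roots.toFinset := by
        intro i hi
        rw [hZ, Finset.mem_filter] at hi
        rw [Multiset.mem_toFinset, mem_roots hQ0]
        exact hi.2
      have h3 := Finset.card_le_card h2
      have h4 := Multiset.toFinset_card_le Q.roots
      have h5 := card_roots' Q
      omega
    have hsum : ∑ i ∈ Z, s i = -(v * ((p : ℤ) - Z.card)) := by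
      have h1 := Finset.sum_filter_add_sum_filter_not (Finset.univ : Finset (ZMod p)) (fun i => Q.eval i = 0) s
      rw [hs, ← hZ] at h1
      have h2 : ∑ i ∈ Finset.univ.filter (fun i : ZMod p => ¬ Q.eval i = 0), s i = v * ((p : ℤ) - Z.card) := by
        have h3 : ∀ i ∈ Finset.univ.filter (fun i : ZMod p => ¬ Q.eval i = 0), s i = v := by
          intro i hi
          rw [Finset.mem_filter] at hi
          exact hex i hi.2
        rw [Finset.sum_congr rfl h3, Finset.sum_const, nsmul_eq_mul]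
        have h4 := Finset.card_filter_add_card_filter_not (s := (Finset.univ : Finset (ZMod p))) (fun i => Q.eval i = 0)
        rw [← hZ, Finset.card_univ, ZMod.card] at h4
        have h5 : ((Finset.univ.filter (fun i : ZMod p => ¬ Q.eval i = 0)).card : ℤ) = (p : ℤ) - Z.card := by
          have h6 : ((Z.card + (Finset.univ.filter (fun i : ZMod p => ¬ Q.eval i = 0)).card : ℕ) : ℤ) = p := by
            exact_mod_cast h4
          push_cast at h6
          linarith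
        rw [h5]
        ring
      linarith
    have hCS : (∑ i ∈ Z, s i) ^ 2 ≤ (Z.card : ℤ) * T := by
      have h1 := sq_sum_le_card_mul_sum_sq (s := Z) (f := s)
      refine h1.trans (mul_le_mul_of_nonneg_left ?_ (Int.natCast_nonneg _))
      rw [hT]
      exact Finset.sum_le_sum_of_subset_of_nonneg (Finset.subset_univ _) fun i _ _ => sq_nonneg _
    rw [hsum] at hCS
    have hZc' : (Z.card : ℤ) ≤ K := by exact_mod_cast hZc
    have h1 : (p : ℤ) ≤ 2 * ((p : ℤ) - Z.card) := by linarith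
    have h2 : 1 ≤ v ^ 2 := by
      have : 1 ≤ |v| := Int.one_le_abs hvne
      rw [← sq_abs]
      nlinarith
    have h3 : (p : ℤ) ^ 2 ≤ 4 * ((Z.card : ℤ) * T) := by
      have h4 : (-(v * ((p : ℤ) - Z.card))) ^ 2 = v ^ 2 * ((p : ℤ) - Z.card) ^ 2 := by ring
      rw [h4] at hCS
      have h5 : ((p : ℤ) - Z.card) ^ 2 ≤ v ^ 2 * ((p : ℤ) - Z.card) ^ 2 :=
        le_mul_of_one_le_left (sq_nonneg _) h2
      have h6 : (p : ℤ) ^ 2 ≤ 4 * ((p : ℤ) - Z.card) ^ 2 := by nlinarith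
      linarith
    have h7 : (Z.card : ℤ) ≤ ((max 1 Z.card : ℕ) : ℤ) := by exact_mod_cast le_max_right _ _
    calc (p : ℤ) ^ 2 ≤ 4 * ((Z.card : ℤ) * T) := h3
      _ ≤ 4 * ((max 1 Z.card : ℕ) : ℤ) * T := by nlinarith

end Pool.Agent.H61.WC
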