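import Pool.Agent.H61.WC.Str

/-!
# [H61 WC Shr] THEOREM W (MP_187c26_nt), combinatorial half: the shear `X → X + a Y` and the minimal polynomial `L`

* `exists_min`: `K` and `L` exist, `K ≤ 2 sqrt |W|`, `W` the set where `F` does not vanish.
* `wc_shear`: after a shear `L` is monic in `Y`.
-/

set_option autoImplicit false

open Polynomial
open scoped Polynomial.Bivariate

namespace Pool.Agent.H61.WC

variable {p : ℕ} [hp : Fact p.Prime]

/-- `X + a Y` -/
noncomputable def qa (a : ZMod p) : (ZMod p)[X][Y] := C X + C (C a) * Y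

/-- the shear `X → X + a Y`, `Y → Y` -/
noncomputable def shr (a : ZMod p) : (ZMod p)[X][Y] →+* (ZMod p)[X][Y] :=
  eval₂RingHom (aeval (qa a) : (ZMod p)[X] →ₐ[ZMod p] (ZMod p)[X][Y]).toRingHom Y

theorem shr_eq (a : ZMod p) (P : (ZMod p)[X][Y]) :
    shr a P = ∑ j ∈ P.support, aeval (qa a) (P.coeff j) * Y ^ j := by
  unfold shr
  rw [coe_eval₂RingHom, eval₂_eq_sum, Polynomial.sum]
  rfl

theorem shr_C (a : ZMod p) (f : (ZMod p)[X]) : shr a (C f) = aeval (qa a) f := by
  unfold shr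
  rw [coe_eval₂RingHom, eval₂_C]
  rfl

theorem shr_Y (a : ZMod p) : shr a (Y : (ZMod p)[X][Y]) = Y := by
  unfold shr
  rw [coe_eval₂RingHom, eval₂_X]

theorem qa_td (a : ZMod p) : TD 1 (qa a) := by
  unfold qa
  exact td_CX.add (((td_C (by simp)).mul td_Y).mono (by omega : 0 + 1 ≤ 1))

theorem aeval_td (a : ZMod p) (f : (ZMod p)[X]) : TD f.natDegree (aeval (qa a) f) := by
  rw [aeval_eq_sum_range]
  refine TD.sum _ _ fun s hs => ?_
  rw [Finset.mem_range] at hs
  have h1 : (f.coeff s • qa a ^ s : (ZMod p)[X][Y]) = C (C (f.coeff s)) * qa a ^ s := by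
    ext i j
    simp
  rw [h1]
  exact ((td_C (N := 0) (by simp)).mul ((qa_td a).pow s)).mono (by omega)

theorem shr_td {N : ℕ} (a : ZMod p) {P : (ZMod p)[X][Y]} (hP : TD N P) : TD N (shr a P) := by
  rw [shr_eq]
  refine TD.sum _ _ fun j hj => ?_
  exact ((aeval_td a _).mul (td_Y.pow j)).mono (by have := hP j (mem_support_iff.1 hj); omega)

theorem shr_evalEval (a : ZMod p) (P : (ZMod p)[X][Y]) (i j : ZMod p) :
    (shr a P).evalEval i j = P.evalEval (i + a * j) j := by
  have h1 : (evalEvalRingHom i j).comp (shr a) = evalEvalRingHom (i + a * j) j := by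
    refine Polynomial.ringHom_ext' ?_ ?_
    · refine Polynomial.ringHom_ext' ?_ ?_
      · refine RingHom.ext fun x => ?_
        simp [shr_C]
      · simp [shr_C, qa]
    · simp [shr_Y]
  exact congrArg (fun f : (ZMod p)[X][Y] →+* ZMod p => f P) h1

theorem shr_inv (a : ZMod p) (P : (ZMod p)[X][Y]) : shr (-a) (shr a P) = P := by
  have h1 : (shr (-a)).comp (shr a) = RingHom.id _ := by
    refine Polynomial.ringHom_ext' ?_ ?_
    · refine Polynomial.ringHom_ext' ?_ ?_
      · refine RingHom.ext fun x => ?_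
        simp [shr_C]
      · have h2 : shr (-a) (C (C a)) = C (C a) := by
          rw [shr_C, aeval_C]
          rfl
        simp [shr_C, qa, shr_Y, h2]
        ring
    · simp [shr_Y]
  exact congrArg (fun f : (ZMod p)[X][Y] →+* (ZMod p)[X][Y] => f P) h1

theorem shr_ne (a : ZMod p) {P : (ZMod p)[X][Y]} (hP : P ≠ 0) : shr a P ≠ 0 := by
  intro h
  have h1 := shr_inv a P
  rw [h, map_zero] at h1
  exact hP h1.symm

theorem van_shr (a : ZMod p) {F M : (ZMod p)[X][Y]} (h : Van p F M) : Van p (shr a F) (shr a M) := by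
  intro i j hij
  rw [shr_evalEval] at hij ⊢
  exact h _ _ hij

theorem mn_shr (a : ZMod p) {F : (ZMod p)[X][Y]} {K : ℕ} (h : Mn p F K) : Mn p (shr a F) K := by
  intro M hM hv N hN
  refine h (shr (-a) M) (shr_ne _ hM) ?_ N (shr_td _ hN)
  have := van_shr (-a) hv
  rwa [shr_inv] at this

theorem exists_min (F : (ZMod p)[X][Y]) :
    ∃ (K : ℕ) (L : (ZMod p)[X][Y]), L ≠ 0 ∧ TD K L ∧ Van p F L ∧ Mn p F K := by
  classical
  have hex : ∃ N, ∃ M : (ZMod p)[X][Y], M ≠ 0 ∧ Van p F M ∧ TD N M := by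
    refine ⟨p, JJ p, (jj_monic p).ne_zero, fun i j _ => evalEval_JJ p i j, jj_td p⟩
  obtain ⟨M, h1, h2, h3⟩ := Nat.find_spec hex
  exact ⟨Nat.find hex, M, h1, h3, h2, fun M' hM' hv N hN => Nat.find_le ⟨M', hM', hv, hN⟩⟩

/-- polynomials of small total degree which vanish on `W` -/
theorem exists_van (W : Finset (ZMod p × ZMod p)) (κ : ℕ) (h : W.card < (κ + 1) * (κ + 1)) :
    ∃ M : (ZMod p)[X][Y], M ≠ 0 ∧ TD (2 * κ) M ∧ ∀ z ∈ W, M.evalEval z.1 z.2 = 0 := by
  classical
  obtain ⟨φ, hφ⟩ : ∃ φ : (Fin (κ + 1) × Fin (κ + 1) → ZMod p) →ₗ[ZMod p] (W → ZMod p),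
      ∀ c z, φ c z = ∑ x, c x * (z.1.1 ^ (x.1 : ℕ) * z.1.2 ^ (x.2 : ℕ)) := by
    refine ⟨Matrix.mulVecLin (Matrix.of fun (z : W) (x : Fin (κ + 1) × Fin (κ + 1)) => z.1.1 ^ (x.1 : ℕ) * z.1.2 ^ (x.2 : ℕ)),
      fun c z => ?_⟩
    rw [Matrix.mulVecLin_apply]
    simp only [Matrix.mulVec, dotProduct, Matrix.of_apply]
    exact Finset.sum_congr rfl fun x _ => mul_comm _ _
  have hker : LinearMap.ker φ ≠ ⊥ := by
    refine LinearMap.ker_ne_bot_of_finrank_lt ?_
    rw [Module.finrank_fintype_fun_eq_card, Module.finrank_fintype_fun_eq_card, Fintype.card_coe, Fintype.card_prod,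
      Fintype.card_fin]
    exact h
  obtain ⟨c, hc, hc0⟩ := (Submodule.ne_bot_iff _).1 hker
  rw [LinearMap.mem_ker] at hc
  obtain ⟨M, hM⟩ : ∃ M : (ZMod p)[X][Y], M = ∑ x : Fin (κ + 1) × Fin (κ + 1), monomial (x.2 : ℕ) (monomial (x.1 : ℕ) (c x)) := ⟨_, rfl⟩
  refine ⟨M, ?_, ?_, ?_⟩
  · intro h0
    apply hc0
    funext x
    have h1 := congrArg (fun P : (ZMod p)[X][Y] => (P.coeff (x.2 : ℕ)).coeff (x.1 : ℕ)) h0
    simp only [coeff_zero] at h1
    rw [hM, finsetSum_coeff, finsetSum_coeff, Finset.sum_eq_single x] at h1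
    · simpa using h1
    · intro y _ hy
      rw [coeff_monomial]
      split_ifs with h2
      · rw [coeff_monomial, if_neg]
        intro h3
        exact hy (Prod.ext (Fin.ext h3) (Fin.ext h2))
      · simp
    · intro h2
      exact absurd (Finset.mem_univ _) h2
  · rw [hM]
    refine TD.sum _ _ fun x _ => ?_
    intro j hj
    rw [coeff_monomial] at hj ⊢
    split_ifs at hj ⊢ with h1
    · have := natDegree_monomial_le (m := (x.1 : ℕ)) (c x)
      have := x.1.2
      have := x.2.2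
      omega
    · exact absurd rfl hj
  · intro z hz
    have h1 := congrFun hc ⟨z, hz⟩
    rw [hφ] at h1
    rw [hM]
    have h2 := map_sum (evalEvalRingHom z.1 z.2) (fun x : Fin (κ + 1) × Fin (κ + 1) => (monomial (x.2 : ℕ) (monomial (x.1 : ℕ) (c x)) : (ZMod p)[X][Y])) Finset.univ
    rw [coe_evalEvalRingHom] at h2
    rw [h2]
    rw [← h1.trans (Pi.zero_apply _)]
    refine Finset.sum_congr rfl fun x _ => ?_
    rw [evalEval, eval_monomial, eval_mul, eval_monomial, ← C_pow, eval_C]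
    ring

theorem coeff_shr (a : ZMod p) (L : (ZMod p)[X][Y]) (K : ℕ) (hL : TD K L) :
    (shr a L).coeff K = C (∑ j ∈ Finset.range (K + 1), (L.coeff j).coeff (K - j) * a ^ (K - j)) := by
  classical
  have h1 : shr a L = ∑ j ∈ Finset.range (K + 1), aeval (qa a) (L.coeff j) * Y ^ j := by
    rw [shr_eq]
    refine Finset.sum_subset (fun j hj => ?_) fun j _ hj => ?_
    · have := hL j (mem_support_iff.1 hj)
      rw [Finset.mem_range]
      omega
    · rw [notMem_support_iff.1 hj, map_zero, zero_mul]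
  have hq : (qa a).natDegree ≤ 1 := (qa_td a).natDegree_le
  have hq1 : (qa a).coeff 1 = C a := by
    unfold qa
    simp [coeff_C]
  rw [h1, finsetSum_coeff, map_sum]
  refine Finset.sum_congr rfl fun j hj => ?_
  rw [Finset.mem_range] at hj
  have e1 : K = (K - j) + j := by omega
  conv_lhs => rw [e1]
  rw [coeff_mul_X_pow, aeval_eq_sum_range' (n := K - j + 1) (by have := hL.coeff_le j; omega), finsetSum_coeff,
    Finset.sum_eq_single (K - j)]
  · have h2 : ((qa a) ^ (K - j)).coeff ((K - j) * 1) = (qa a).coeff 1 ^ (K - j) := coeff_pow_of_natDegree_le hq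
    rw [mul_one] at h2
    rw [coeff_smul, h2, hq1, ← C_pow, smul_C, smul_eq_mul]
  · intro s hs hne
    rw [Finset.mem_range] at hs
    have h3 : (qa a ^ s).coeff (K - j) = 0 := by
      refine coeff_eq_zero_of_natDegree_lt ((natDegree_pow_le_of_le s hq).trans_lt ?_)
      omega
    rw [coeff_smul, h3, smul_zero]
  · intro h2
    exact absurd (Finset.mem_range.2 (by omega)) h2

theorem wc_shear (F : (ZMod p)[X][Y]) (N K : ℕ) (hF : TD N F) (hK : K < p) (L : (ZMod p)[X][Y]) (hL0 : L ≠ 0)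
    (hL : TD K L) (hv : Van p F L) (hmin : Mn p F K) :
    ∃ (a : ZMod p) (L' : (ZMod p)[X][Y]), TD N (shr a F) ∧ TD K L' ∧ L'.Monic ∧ L'.natDegree = K ∧
      Van p (shr a F) L' ∧ Mn p (shr a F) K := by
  classical
  obtain ⟨τ, hτ⟩ : ∃ τ : (ZMod p)[X], τ = ∑ j ∈ Finset.range (K + 1), C ((L.coeff j).coeff (K - j)) * X ^ (K - j) := ⟨_, rfl⟩
  have hτd : τ.natDegree ≤ K := by
    rw [hτ]
    refine natDegree_sum_le_of_forall_le _ _ fun j _ => ?_
    exact (natDegree_C_mul_X_pow_le _ _).trans (Nat.sub_le _ _)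
  have hτ0 : τ ≠ 0 := by
    intro h0
    have hc : ∀ j ≤ K, (L.coeff j).coeff (K - j) = 0 := by
      intro j hj
      have h1 := congrArg (fun f : (ZMod p)[X] => f.coeff (K - j)) h0
      simp only [coeff_zero] at h1
      rw [hτ, finsetSum_coeff, Finset.sum_eq_single j] at h1
      · simpa using h1
      · intro i hi hij
        rw [Finset.mem_range] at hi
        rw [coeff_C_mul, coeff_X_pow, if_neg (by omega), mul_zero]
      · intro h2
        exact absurd (Finset.mem_range.2 (by omega)) h2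
    rcases Nat.eq_zero_or_pos K with hK0 | hK0
    · apply hL0
      ext i j
      rw [coeff_zero, coeff_zero]
      by_cases h2 : j + i = 0
      · have h3 := hc 0 (by omega)
        have e1 : i = 0 := by omega
        have e2 : j = 0 := by omega
        rw [e1, e2]
        rwa [hK0] at h3
      · exact (td_iff K L).1 hL i j (by omega)
    · have h4 : TD (K - 1) L := by
        rw [td_iff]
        intro j s hs
        by_cases h5 : s + j = K
        · have h6 := hc j (by omega)
          have e1 : K - j = s := by omega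
          rwa [e1] at h6
        · exact (td_iff K L).1 hL j s (by omega)
      have := hmin L hL0 hv _ h4
      omega
  obtain ⟨a, ha⟩ : ∃ a, τ.eval a ≠ 0 := by
    by_contra hno
    push Not at hno
    exact hτ0 (zero_of_lt p (by omega) hno)
  have hcoef : (shr a L).coeff K = C (τ.eval a) := by
    rw [coeff_shr a L K hL, hτ, eval_finset_sum]
    simp
  obtain ⟨L', hL'⟩ : ∃ L' : (ZMod p)[X][Y], L' = C (C (τ.eval a)⁻¹) * shr a L := ⟨_, rfl⟩
  have h1 : L'.coeff K = 1 := by
    rw [hL', coeff_C_mul, hcoef, ← C_mul, inv_mul_cancel₀ ha, C_1]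
  have h2 : TD K L' := by
    rw [hL']
    exact ((td_C (N := 0) (by simp)).mul (shr_td a hL)).mono (by omega)
  have h3 : L'.natDegree = K := by
    refine le_antisymm h2.natDegree_le (le_natDegree_of_ne_zero ?_)
    rw [h1]
    exact one_ne_zero
  refine ⟨a, L', shr_td a hF, h2, ?_, h3, ?_, mn_shr a hmin⟩
  · rw [Monic, leadingCoeff, h3, h1]
  · intro i j hij
    rw [hL', evalEval_mul, van_shr a hv i j hij, mul_zero]

end Pool.Agent.H61.WC
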