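import Mathlib

/-!
# [H61 WC Sp] THEOREM W (MP_187c26_nt), combinatorial half: the arrays are sparse (think 1601 (IV), 1607)

`n`, `m` two integral arrays on `ZMod p × ZMod p` of energy `≤ 5 p ^ 2` with the Frobenius congruence `m (q i) (q j) = b ^ ⌊q j / p⌋ n i j` mod `q`.
Then `n` vanishes outside a set of `p ^ 2 / D` points (`D` any constant; `q` and `p₀` depend on `b` and `D` only).

PROOF. `H = 20 D`, `M = 16 D (2 H + 1) ^ 2` (or larger), `q` a prime `> b ^ M` (so `q ∤ b`, `q > H`), `p₀ = q` (`p > q`, so `q ≠ 0` in `ZMod p` is not even needed: `(i, j) ↦ (q i, q j)` is injective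
because `¬ p ∣ q`: take `p₀ = q + 1`).
(1) `k < q` is BAD if there are integers `s ≠ 0`, `s'` with `|s|, |s'| ≤ H`, `q ∣ s' - b ^ k s`. For a fixed pair `(s, s')` two bad `k < k'` satisfy `q ∣ s (b ^ (k' - k) - 1) b ^ k`, so `q ∣ b ^ (k' - k) - 1`
(`0 < |s| < q`), so `k' - k ≥ M` (`0 < b ^ (k'-k) - 1 < q` otherwise). So `k ↦ k / M` is injective on these `k`: at most `q / M + 1` of them. Number of bad `k` at most `(2 H + 1) ^ 2 (q / M + 1)`.
(2) For fixed `k` at most `p / q + 1` of the `j < p` have `q j / p = k` (if `a` is the smallest one: `q (j - a) < p`). So the number of the rows `j` with `k = q j.val / p` bad is at most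
`(2 H + 1) ^ 2 (q / M + 1) (p / q + 1) ≤ (2 H + 1) ^ 2 (2 q / M) (2 p / q)`, each has `p` points: in total `≤ p ^ 2 / (2 D)` (`M ≤ q`, `q ≤ p`).
(3) If `n i j ≠ 0` and `k` is not bad then `|n i j| > H` or `|m (q i) (q j)| > H` (`k < q`; use `s = n i j`, `s' = m (q i) (q j)`), so `n^2 + m^2 > H ^ 2`: at most `10 p ^ 2 / H ^ 2 ≤ p ^ 2 / (2 D)` points.
-/

set_option autoImplicit false

namespace Pool.Agent.H61.WC

/-- the bad exponents for one pair -/
private theorem sp_pair (b q M H : ℕ) (hb : 2 ≤ b) (hq : q.Prime) (hqM : b ^ M < q) (hHq : H < q) (hM : 1 ≤ M)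
    (s s' : ℤ) (hs : s ≠ 0) (hsH : |s| ≤ H) :
    ((Finset.range q).filter fun k => (q : ℤ) ∣ s' - (b : ℤ) ^ k * s).card ≤ q / M + 1 := by
  classical
  have hqb : ¬ (q : ℤ) ∣ (b : ℤ) := by
    intro h
    have h1 : q ∣ b := by exact_mod_cast h
    have h2 := Nat.le_of_dvd (by omega) h1
    have h3 : b ^ 1 ≤ b ^ M := Nat.pow_le_pow_right (by omega) hM
    rw [pow_one] at h3
    omega
  have hqP : Prime (q : ℤ) := Nat.prime_iff_prime_int.1 hq
  have hqs : ¬ (q : ℤ) ∣ s := by
    intro h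
    have h1 := Int.le_of_dvd (abs_pos.2 hs) ((dvd_abs _ _).2 h)
    have h2 : (H : ℤ) < q := by exact_mod_cast hHq
    linarith
  have key : ∀ k k' : ℕ, k < k' → (q : ℤ) ∣ s' - (b : ℤ) ^ k * s → (q : ℤ) ∣ s' - (b : ℤ) ^ k' * s →
      k + M ≤ k' := by
    intro k k' hkk h1 h2
    by_contra hlt
    push Not at hlt
    obtain ⟨e, rfl⟩ : ∃ e, k' = k + e := ⟨k' - k, by omega⟩
    have he1 : 1 ≤ e := by omega
    have heM : e < M := by omega
    have h3 : (q : ℤ) ∣ (b : ℤ) ^ k * (s * ((b : ℤ) ^ e - 1)) := by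
      have h4 := dvd_sub h1 h2
      have h5 : (s' - (b : ℤ) ^ k * s) - (s' - (b : ℤ) ^ (k + e) * s) =
          (b : ℤ) ^ k * (s * ((b : ℤ) ^ e - 1)) := by
        rw [pow_add]
        ring
      rwa [h5] at h4
    rcases hqP.dvd_or_dvd h3 with h4 | h4
    · exact hqb (hqP.dvd_of_dvd_pow h4)
    · rcases hqP.dvd_or_dvd h4 with h5 | h5
      · exact hqs h5
      · have hb' : (2 : ℤ) ≤ b := by exact_mod_cast hb
        have h6 : (1 : ℤ) < (b : ℤ) ^ e := one_lt_pow₀ (by linarith) (by omega)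
        have h7 := Int.le_of_dvd (by linarith) h5
        have h8 : b ^ e ≤ b ^ M := Nat.pow_le_pow_right (by omega) heM.le
        have h9 : ((b ^ e : ℕ) : ℤ) < q := by exact_mod_cast lt_of_le_of_lt h8 hqM
        push_cast at h9
        linarith
  have hinj : Set.InjOn (fun k : ℕ => k / M)
      ((Finset.range q).filter fun k => (q : ℤ) ∣ s' - (b : ℤ) ^ k * s : Finset ℕ) := by
    intro k hk k' hk' hkk
    rw [Finset.mem_coe, Finset.mem_filter] at hk hk'
    simp only at hkk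
    by_contra hne
    rcases Nat.lt_or_gt_of_ne hne with h | h
    · have h1 := key k k' h hk.2 hk'.2
      have h2 : (k + M) / M ≤ k' / M := Nat.div_le_div_right h1
      rw [Nat.add_div_right _ (by omega)] at h2
      omega
    · have h1 := key k' k h hk'.2 hk.2
      have h2 : (k' + M) / M ≤ k / M := Nat.div_le_div_right h1
      rw [Nat.add_div_right _ (by omega)] at h2
      omega
  calc ((Finset.range q).filter fun k => (q : ℤ) ∣ s' - (b : ℤ) ^ k * s).card
      = (((Finset.range q).filter fun k => (q : ℤ) ∣ s' - (b : ℤ) ^ k * s).image fun k => k / M).card :=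
        (Finset.card_image_of_injOn hinj).symm
    _ ≤ (Finset.range (q / M + 1)).card := by
        apply Finset.card_le_card
        intro t ht
        rw [Finset.mem_image] at ht
        obtain ⟨k, hk, rfl⟩ := ht
        rw [Finset.mem_filter, Finset.mem_range] at hk
        rw [Finset.mem_range]
        exact Nat.lt_succ_of_le (Nat.div_le_div_right hk.1.le)
    _ = q / M + 1 := Finset.card_range _

/-- all bad exponents -/
private theorem sp_bad (b q M H : ℕ) (hb : 2 ≤ b) (hq : q.Prime) (hqM : b ^ M < q) (hHq : H < q) (hM : 1 ≤ M) :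
    ∃ Bd : Finset ℕ, Bd.card ≤ (2 * H + 1) ^ 2 * (q / M + 1) ∧
      ∀ k < q, ∀ s s' : ℤ, s ≠ 0 → |s| ≤ H → |s'| ≤ H → (q : ℤ) ∣ s' - (b : ℤ) ^ k * s → k ∈ Bd := by
  classical
  obtain ⟨I, hI⟩ : ∃ I : Finset (ℤ × ℤ), I = ((Finset.Icc (-(H : ℤ)) H) ×ˢ (Finset.Icc (-(H : ℤ)) H)).filter
      fun z => z.1 ≠ 0 := ⟨_, rfl⟩
  refine ⟨I.biUnion fun z => (Finset.range q).filter fun k => (q : ℤ) ∣ z.2 - (b : ℤ) ^ k * z.1, ?_, ?_⟩
  · refine (Finset.card_biUnion_le_card_mul _ _ (q / M + 1) ?_).trans (Nat.mul_le_mul_right _ ?_)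
    · intro z hz
      rw [hI, Finset.mem_filter, Finset.mem_product, Finset.mem_Icc, Finset.mem_Icc] at hz
      exact sp_pair b q M H hb hq hqM hHq hM z.1 z.2 hz.2 (abs_le.2 hz.1.1)
    · rw [hI]
      refine (Finset.card_filter_le _ _).trans ?_
      rw [Finset.card_product, Int.card_Icc]
      have h1 : ((H : ℤ) + 1 - -(H : ℤ)).toNat = 2 * H + 1 := by omega
      rw [h1, sq]
  · intro k hk s s' hs hsH hs'H hd
    rw [Finset.mem_biUnion]
    refine ⟨(s, s'), ?_, ?_⟩
    · rw [hI, Finset.mem_filter, Finset.mem_product, Finset.mem_Icc, Finset.mem_Icc]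
      exact ⟨⟨abs_le.1 hsH, abs_le.1 hs'H⟩, hs⟩
    · rw [Finset.mem_filter, Finset.mem_range]
      exact ⟨hk, hd⟩

/-- the rows of one exponent -/
private theorem sp_rows (p q k : ℕ) [Fact p.Prime] (hq : 0 < q) :
    (Finset.univ.filter fun j : ZMod p => q * j.val / p = k).card ≤ p / q + 1 := by
  classical
  have hp : 0 < p := (Fact.out : p.Prime).pos
  obtain ⟨a, ha⟩ : ∃ a : ℕ, a = (k * p + q - 1) / q := ⟨_, rfl⟩
  have hinj : Set.InjOn (fun j : ZMod p => j.val)
      (Finset.univ.filter fun j : ZMod p => q * j.val / p = k : Finset (ZMod p)) :=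
    fun x _ y _ h => ZMod.val_injective p h
  rw [← Finset.card_image_of_injOn hinj]
  calc ((Finset.univ.filter fun j : ZMod p => q * j.val / p = k).image fun j : ZMod p => j.val).card
      ≤ (Finset.Icc a (a + p / q)).card := by
        apply Finset.card_le_card
        intro t ht
        rw [Finset.mem_image] at ht
        obtain ⟨j, hj, rfl⟩ := ht
        rw [Finset.mem_filter] at hj
        have h1 : k * p ≤ q * j.val := by
          rw [← hj.2]
          exact Nat.div_mul_le_self _ _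
        have h2 : q * j.val < (k + 1) * p := by
          rw [← Nat.div_lt_iff_lt_mul hp, hj.2]
          exact Nat.lt_succ_self k
        have h3 : a ≤ j.val := by
          rw [ha]
          have h4 : k * p + q - 1 < (j.val + 1) * q := by
            have h5 : (j.val + 1) * q = q * j.val + q := by ring
            omega
          have h5 := (Nat.div_lt_iff_lt_mul hq).2 h4
          omega
        have h4 : k * p ≤ q * a := by
          have h5 := Nat.div_add_mod (k * p + q - 1) q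
          have h6 := Nat.mod_lt (k * p + q - 1) hq
          rw [← ha] at h5
          omega
        rw [Finset.mem_Icc]
        refine ⟨h3, ?_⟩
        have h5 : j.val - a ≤ p / q := by
          rw [Nat.le_div_iff_mul_le hq]
          have h6 : (j.val - a) * q + a * q = j.val * q := by
            rw [← add_mul, Nat.sub_add_cancel h3]
          have h7 : j.val * q = q * j.val := mul_comm _ _
          have h8 : a * q = q * a := mul_comm _ _
          have h9 : (k + 1) * p = k * p + p := by ring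
          omega
        omega
    _ = p / q + 1 := by
        rw [Nat.card_Icc]
        generalize p / q = t
        omega

/-- large values -/
private theorem sp_large (p : ℕ) [Fact p.Prime] (H : ℕ) (f : ZMod p → ZMod p → ℤ)
    (hf : ∑ i, ∑ j, (f i j) ^ 2 ≤ 5 * (p : ℤ) ^ 2) :
    H ^ 2 * (Finset.univ.filter fun z : ZMod p × ZMod p => (H : ℤ) < |f z.1 z.2|).card ≤ 5 * p ^ 2 := by
  classical
  have h1 : ((H ^ 2 * (Finset.univ.filter fun z : ZMod p × ZMod p => (H : ℤ) < |f z.1 z.2|).card : ℕ) : ℤ) ≤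
      5 * (p : ℤ) ^ 2 := by
    refine le_trans ?_ hf
    rw [← Fintype.sum_prod_type' (f := fun i j => (f i j) ^ 2)]
    push_cast
    calc (H : ℤ) ^ 2 * ((Finset.univ.filter fun z : ZMod p × ZMod p => (H : ℤ) < |f z.1 z.2|).card : ℤ)
        = ∑ _z ∈ Finset.univ.filter (fun z : ZMod p × ZMod p => (H : ℤ) < |f z.1 z.2|), (H : ℤ) ^ 2 := by
          rw [Finset.sum_const, nsmul_eq_mul, mul_comm]
      _ ≤ ∑ z ∈ Finset.univ.filter (fun z : ZMod p × ZMod p => (H : ℤ) < |f z.1 z.2|), (f z.1 z.2) ^ 2 := by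
          refine Finset.sum_le_sum fun z hz => ?_
          rw [Finset.mem_filter] at hz
          rw [← sq_abs (f z.1 z.2)]
          exact pow_le_pow_left₀ (Int.natCast_nonneg _) hz.2.le 2
      _ ≤ ∑ z : ZMod p × ZMod p, (f z.1 z.2) ^ 2 :=
          Finset.sum_le_sum_of_subset_of_nonneg (Finset.subset_univ _) fun z _ _ => sq_nonneg _
  exact_mod_cast h1

theorem wc_sparse (b : ℕ) (hb : 2 ≤ b) (D : ℕ) (hD : 1 ≤ D) : ∃ q p₀ : ℕ, q.Prime ∧ ¬ q ∣ b ∧
    ∀ (p : ℕ) [Fact p.Prime], p₀ ≤ p → ∀ n m : ZMod p → ZMod p → ℤ,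
      ∑ i, ∑ j, (n i j) ^ 2 ≤ 5 * (p : ℤ) ^ 2 → ∑ i, ∑ j, (m i j) ^ 2 ≤ 5 * (p : ℤ) ^ 2 →
      (∀ i j, (q : ℤ) ∣ m ((q : ZMod p) * i) ((q : ZMod p) * j) - (b : ℤ) ^ ((q * j.val) / p) * n i j) →
      D * (Finset.univ.filter fun z : ZMod p × ZMod p => n z.1 z.2 ≠ 0).card ≤ p ^ 2 := by
  classical
  obtain ⟨H, hH⟩ : ∃ H, H = 20 * D := ⟨_, rfl⟩
  obtain ⟨M, hM⟩ : ∃ M, M = 16 * D * (2 * H + 1) ^ 2 := ⟨_, rfl⟩
  have hM1 : 1 ≤ M := by
    rw [hM]
    have : 0 < 16 * D * (2 * H + 1) ^ 2 := by positivity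
    omega
  have hMH : H < M := by
    rw [hM]
    have h1 : 2 * H + 1 ≤ (2 * H + 1) ^ 2 := by
      rw [sq]
      exact Nat.le_mul_self _
    have h2 : (2 * H + 1) ^ 2 ≤ 16 * D * (2 * H + 1) ^ 2 := Nat.le_mul_of_pos_left _ (by omega)
    omega
  obtain ⟨q, hqge, hq⟩ := Nat.exists_infinite_primes (b ^ M + 1)
  have hqM : b ^ M < q := by omega
  have hMq : M ≤ q := by
    have h1 : M < 2 ^ M := Nat.lt_two_pow_self
    have h2 : 2 ^ M ≤ b ^ M := Nat.pow_le_pow_left hb M
    omega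
  have hHq : H < q := by omega
  have hqb : ¬ q ∣ b := by
    intro h
    have h2 := Nat.le_of_dvd (by omega) h
    have h3 : b ^ 1 ≤ b ^ M := Nat.pow_le_pow_right (by omega) hM1
    rw [pow_one] at h3
    omega
  obtain ⟨Bd, hBd, hBdm⟩ := sp_bad b q M H hb hq hqM hHq hM1
  refine ⟨q, q + 1, hq, hqb, ?_⟩
  intro p hp hpq n m hn hm hc
  have hpp : p.Prime := hp.out
  have hq0 : ((q : ℕ) : ZMod p) ≠ 0 := by
    intro h
    rw [ZMod.natCast_eq_zero_iff] at h
    have := Nat.le_of_dvd hq.pos h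
    omega
  -- the three sets
  obtain ⟨J, hJ⟩ : ∃ J : Finset (ZMod p), J = Finset.univ.filter fun j : ZMod p => q * j.val / p ∈ Bd := ⟨_, rfl⟩
  have hJc : J.card ≤ (p / q + 1) * Bd.card := by
    refine Finset.card_le_mul_card_image_of_maps_to (f := fun j : ZMod p => q * j.val / p) ?_ _ ?_
    · intro j hj
      rw [hJ, Finset.mem_filter] at hj
      exact hj.2
    · intro k _
      refine (Finset.card_le_card ?_).trans (sp_rows p q k hq.pos)
      intro j hj
      rw [Finset.mem_filter] at hj ⊢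
      exact ⟨Finset.mem_univ _, hj.2⟩
  have hX2 := sp_large p H n hn
  have hX3 := sp_large p H (fun i j => m ((q : ZMod p) * i) ((q : ZMod p) * j)) (by
    refine le_trans (le_of_eq ?_) hm
    have h1 := Equiv.sum_comp (Equiv.mulLeft₀ ((q : ℕ) : ZMod p) hq0)
      (fun i => ∑ j, (m i j) ^ 2)
    rw [← h1]
    refine Finset.sum_congr rfl fun i _ => ?_
    exact Equiv.sum_comp (Equiv.mulLeft₀ ((q : ℕ) : ZMod p) hq0)
      (fun j => (m (Equiv.mulLeft₀ ((q : ℕ) : ZMod p) hq0 i) j) ^ 2))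
  obtain ⟨X, hX⟩ : ∃ X : Finset (ZMod p × ZMod p), X = Finset.univ.filter fun z => n z.1 z.2 ≠ 0 := ⟨_, rfl⟩
  obtain ⟨X2, hX2'⟩ : ∃ X2 : Finset (ZMod p × ZMod p), X2 = Finset.univ.filter fun z => (H : ℤ) < |n z.1 z.2| :=
    ⟨_, rfl⟩
  obtain ⟨X3, hX3'⟩ : ∃ X3 : Finset (ZMod p × ZMod p), X3 = Finset.univ.filter fun z =>
      (H : ℤ) < |m ((q : ZMod p) * z.1) ((q : ZMod p) * z.2)| := ⟨_, rfl⟩
  have hsub : X ⊆ (Finset.univ ×ˢ J) ∪ (X2 ∪ X3) := by
    intro z hz
    rw [hX, Finset.mem_filter] at hz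
    rw [Finset.mem_union, Finset.mem_union, Finset.mem_product]
    by_contra hcon
    push Not at hcon
    obtain ⟨h1, h2, h3⟩ := hcon
    have h1' := h1 (Finset.mem_univ _)
    rw [hX2', Finset.mem_filter] at h2
    push Not at h2
    rw [hX3', Finset.mem_filter] at h3
    push Not at h3
    apply h1'
    rw [hJ, Finset.mem_filter]
    refine ⟨Finset.mem_univ _, ?_⟩
    refine hBdm _ ?_ (n z.1 z.2) (m ((q : ZMod p) * z.1) ((q : ZMod p) * z.2)) hz.2
      (h2 (Finset.mem_univ _)) (h3 (Finset.mem_univ _)) (hc z.1 z.2)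
    rw [Nat.div_lt_iff_lt_mul hpp.pos]
    exact Nat.mul_lt_mul_of_pos_left (ZMod.val_lt z.2) hq.pos
  have hXc : X.card ≤ p * J.card + (X2.card + X3.card) := by
    refine (Finset.card_le_card hsub).trans ((Finset.card_union_le _ _).trans (Nat.add_le_add ?_
      (Finset.card_union_le _ _)))
    rw [Finset.card_product, Finset.card_univ, ZMod.card]
  rw [← hX2'] at hX2
  rw [← hX3'] at hX3
  rw [← hX]
  have hXJ : 4 * D * (p * J.card) ≤ p ^ 2 := by
    have h1 : M * (q / M + 1) ≤ 2 * q := by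
      have h2 := Nat.mul_div_le q M
      rw [mul_add, mul_one]
      omega
    have h2 : q * (p / q + 1) ≤ 2 * p := by
      have h3 := Nat.mul_div_le p q
      rw [mul_add, mul_one]
      omega
    have h3 : J.card ≤ (p / q + 1) * ((2 * H + 1) ^ 2 * (q / M + 1)) := hJc.trans (Nat.mul_le_mul_left _ hBd)
    have h4 : M * q * (p * J.card) ≤ q * ((2 * H + 1) ^ 2 * (4 * p ^ 2)) := by
      calc M * q * (p * J.card) ≤ M * q * (p * ((p / q + 1) * ((2 * H + 1) ^ 2 * (q / M + 1)))) :=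
            Nat.mul_le_mul_left _ (Nat.mul_le_mul_left _ h3)
        _ = (M * (q / M + 1)) * ((q * (p / q + 1)) * (p * (2 * H + 1) ^ 2)) := by ring
        _ ≤ (2 * q) * ((2 * p) * (p * (2 * H + 1) ^ 2)) :=
            Nat.mul_le_mul h1 (Nat.mul_le_mul_right _ h2)
        _ = q * ((2 * H + 1) ^ 2 * (4 * p ^ 2)) := by ring
    have h5 : M * q * (p * J.card) = q * ((2 * H + 1) ^ 2 * (4 * (4 * D * (p * J.card)))) := by
      rw [hM]
      ring
    rw [h5] at h4
    have h6 := Nat.le_of_mul_le_mul_left h4 hq.pos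
    have h7 := Nat.le_of_mul_le_mul_left h6 (by positivity)
    omega
  have hD2 : D ≤ D ^ 2 := by
    rw [sq]
    exact Nat.le_mul_self D
  have hE2 : 80 * (D * X2.card) ≤ p ^ 2 := by
    have h1 : H ^ 2 * X2.card = 5 * (80 * (D ^ 2 * X2.card)) := by rw [hH]; ring
    rw [h1] at hX2
    have h2 : D * X2.card ≤ D ^ 2 * X2.card := Nat.mul_le_mul_right _ hD2
    omega
  have hE3 : 80 * (D * X3.card) ≤ p ^ 2 := by
    have h1 : H ^ 2 * X3.card = 5 * (80 * (D ^ 2 * X3.card)) := by rw [hH]; ring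
    rw [h1] at hX3
    have h2 : D * X3.card ≤ D ^ 2 * X3.card := Nat.mul_le_mul_right _ hD2
    omega
  have h1 : D * X.card ≤ D * (p * J.card) + (D * X2.card + D * X3.card) := by
    rw [← mul_add, ← mul_add]
    exact Nat.mul_le_mul_left _ hXc
  have h2 : 4 * D * (p * J.card) = 4 * (D * (p * J.card)) := by ring
  omega

end Pool.Agent.H61.WC
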