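import Pool.Agent.H61.WC.Spl
import Pool.Agent.H61.WC.Shr
import Pool.Agent.H61.WC.New
import Pool.Agent.H61.WC.Sp
import Pool.Agent.H61.WC.Row
import Pool.Agent.H61.WC.Nro

/-!
# [H61 WC Main] THEOREM W (MP_187c26_nt), combinatorial half: the main theorem

Two integral arrays `n`, `m` on `F_p × F_p` of energy `≤ 5 p ^ 2`; the sums of `n` over the rows are `0`; the Frobenius congruence mod `q`; the mixed differences of order `≥ p - 1` of `b ^ j n(i, j)` are `0` mod `p`. Then every row of `n`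
is mod `p` a polynomial of degree `≤ 42`.
-/

set_option autoImplicit false

open Polynomial
open scoped Polynomial.Bivariate

namespace Pool.Agent.H61.WC

section lines

variable {p : ℕ} [hp : Fact p.Prime]

/-- the energy of the lines which are not rows, off the crossings -/
theorem off_energy (n : ZMod p → ZMod p → ℤ) (T : Finset (ZMod p × ZMod p)) :
    ∑ t ∈ T.filter (fun t => t.1 ≠ 0), ∑ j ∈ Finset.univ.filter (fun j : ZMod p => (Qt T t).eval ((j - t.2) / t.1) ≠ 0),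
      (n ((j - t.2) / t.1) j) ^ 2 ≤ ∑ j, ∑ i, (n i j) ^ 2 := by
  classical
  have h1 : ∑ t ∈ T.filter (fun t => t.1 ≠ 0), ∑ j ∈ Finset.univ.filter (fun j : ZMod p => (Qt T t).eval ((j - t.2) / t.1) ≠ 0),
      (n ((j - t.2) / t.1) j) ^ 2 = ∑ j, ∑ t ∈ (T.filter (fun t => t.1 ≠ 0)).filter (fun t => (Qt T t).eval ((j - t.2) / t.1) ≠ 0),
      (n ((j - t.2) / t.1) j) ^ 2 := by
    obtain ⟨T', hT'⟩ : ∃ T', T' = T.filter (fun t => t.1 ≠ 0) := ⟨_, rfl⟩
    rw [← hT']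
    simp_rw [Finset.sum_filter]
    exact Finset.sum_comm
  rw [h1]
  refine Finset.sum_le_sum fun j _ => ?_
  obtain ⟨S, hS⟩ : ∃ S, S = (T.filter (fun t => t.1 ≠ 0)).filter (fun t => (Qt T t).eval ((j - t.2) / t.1) ≠ 0) := ⟨_, rfl⟩
  rw [← hS]
  have hinj : Set.InjOn (fun t : ZMod p × ZMod p => (j - t.2) / t.1) S := by
    intro s hs t ht hst
    by_contra hne
    rw [hS, Finset.mem_coe, Finset.mem_filter, Finset.mem_filter] at hs ht
    obtain ⟨⟨hs1, hs2⟩, hs3⟩ := hs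
    obtain ⟨⟨ht1, ht2⟩, ht3⟩ := ht
    apply hs3
    rw [Qt_eval, Finset.prod_eq_zero_iff]
    refine ⟨t, Finset.mem_erase.2 ⟨fun h => hne h.symm, ht1⟩, ?_⟩
    have e1 : s.1 * ((j - s.2) / s.1) + s.2 = j := by field_simp; ring
    have e2 : t.1 * ((j - s.2) / s.1) + t.2 = j := by
      have : (j - s.2) / s.1 = (j - t.2) / t.1 := hst
      rw [this]
      field_simp
      ring
    rw [e1, e2, sub_self]
  rw [← Finset.sum_image (f := fun i => (n i j) ^ 2) hinj]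
  exact Finset.sum_le_sum_of_subset_of_nonneg (Finset.subset_univ _) fun i _ _ => sq_nonneg _

/-- a row: the number of crossings -/
theorem row_cross (T : Finset (ZMod p × ZMod p)) (t : ZMod p × ZMod p) (ht : t ∈ T) (ht0 : t.1 = 0) :
    (Finset.univ.filter fun i : ZMod p => (Qt T t).eval i = 0).card ≤ (T.filter fun s => s.1 ≠ 0).card := by
  classical
  refine (Finset.card_le_card ?_).trans (Finset.card_image_le (s := T.filter fun s => s.1 ≠ 0) (f := fun s => (t.2 - s.2) / s.1))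
  intro i hi
  rw [Finset.mem_filter, Qt_eval, Finset.prod_eq_zero_iff] at hi
  obtain ⟨-, s, hs, h1⟩ := hi
  rw [Finset.mem_erase] at hs
  have hs0 : s.1 ≠ 0 := by
    intro h2
    apply hs.1
    rw [ht0, h2] at h1
    simp only [zero_mul, zero_add] at h1
    exact Prod.ext (h2.trans ht0.symm) (sub_eq_zero.1 h1).symm
  rw [Finset.mem_image]
  refine ⟨s, Finset.mem_filter.2 ⟨hs.2, hs0⟩, ?_⟩
  rw [ht0, zero_mul, zero_add] at h1
  field_simp
  linear_combination h1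

theorem comp_lin_ne (P : (ZMod p)[X]) (hP : P ≠ 0) (a c : ZMod p) (ha : a ≠ 0) : P.comp (C a * X + C c) ≠ 0 := by
  intro h
  have h1 : (P.comp (C a * X + C c)).comp (C a⁻¹ * X + C (-(a⁻¹ * c))) = P := by
    rw [comp_assoc]
    have : (C a * X + C c : (ZMod p)[X]).comp (C a⁻¹ * X + C (-(a⁻¹ * c))) = X := by
      simp only [add_comp, mul_comp, C_comp, X_comp, mul_add, C_neg, C_mul]
      have h2 : (C a * C a⁻¹ : (ZMod p)[X]) = 1 := by rw [← C_mul, mul_inv_cancel₀ ha, C_1]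
      linear_combination (X - C c) * h2
    rw [this, comp_X]
  rw [h, zero_comp] at h1
  exact hP h1.symm

end lines

/-- the theorem for one sparse array -/
theorem wc_core (b : ℕ) (hb : 2 ≤ b) : ∃ D p₀ : ℕ, 1 ≤ D ∧
    ∀ (p : ℕ) [Fact p.Prime], p₀ ≤ p → ∀ n : ZMod p → ZMod p → ℤ,
      D * (Finset.univ.filter fun z : ZMod p × ZMod p => n z.1 z.2 ≠ 0).card ≤ p ^ 2 →
      ∑ i, ∑ j, (n i j) ^ 2 ≤ 5 * (p : ℤ) ^ 2 → (∀ j, ∑ i, n i j = 0) →
      (∀ k l : ℕ, k < p → l < p → p - 1 ≤ k + l →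
        (p : ℤ) ∣ ∑ s ∈ Finset.range (k + 1), ∑ t ∈ Finset.range (l + 1),
          (-1) ^ ((k - s) + (l - t)) * (k.choose s : ℤ) * (l.choose t : ℤ) * ((b : ℤ) ^ t * n (s : ZMod p) (t : ZMod p))) →
      ∀ j, ∃ P : (ZMod p)[X], P.natDegree ≤ 42 ∧ ∀ i, (n i j : ZMod p) = P.eval i := by
  classical
  obtain ⟨M₀, hM₀, hnrow⟩ := wc_nrow b 210 hb (by norm_num)
  obtain ⟨M, hM⟩ : ∃ M, M = max M₀ 640 := ⟨_, rfl⟩
  have hM1 : 640 ≤ M := by rw [hM]; exact le_max_right _ _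
  have hM2 : M₀ ≤ M := by rw [hM]; exact le_max_left _ _
  refine ⟨4 * M ^ 2, b + 1, by nlinarith, ?_⟩
  intro p _ hp₀ n hsparse hE1 hR hCo
  have hp := (Fact.out : p.Prime)
  have hp2 := hp.two_le
  have hpb : ¬ p ∣ b := by
    intro h
    have := Nat.le_of_dvd (by omega) h
    omega
  have hb0 : (b : ZMod p) ≠ 0 := by
    rwa [Ne, ZMod.natCast_eq_zero_iff]
  -- the polynomial
  obtain ⟨F, hF, hFe⟩ := wc_newton p (fun i j => (b : ZMod p) ^ j.val * (n i j : ZMod p)) (by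
    intro k l hk hl hkl
    have h1 := (ZMod.intCast_zmod_eq_zero_iff_dvd _ p).2 (hCo k l hk hl hkl)
    push_cast at h1
    rw [← h1]
    refine Finset.sum_congr rfl fun s _ => Finset.sum_congr rfl fun t ht => ?_
    rw [Finset.mem_range] at ht
    rw [ZMod.val_cast_of_lt (by omega)])
  obtain ⟨K, L, hL0, hL, hv, hmin⟩ := exists_min F
  -- `K` is small
  have hMK : M * K ≤ p := by
    obtain ⟨W, hW⟩ : ∃ W, W = Finset.univ.filter fun z : ZMod p × ZMod p => F.evalEval z.1 z.2 ≠ 0 := ⟨_, rfl⟩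
    have hWn : W.card ≤ (Finset.univ.filter fun z : ZMod p × ZMod p => n z.1 z.2 ≠ 0).card := by
      refine Finset.card_le_card fun z hz => ?_
      rw [hW, Finset.mem_filter] at hz
      rw [Finset.mem_filter]
      refine ⟨Finset.mem_univ _, fun h0 => hz.2 ?_⟩
      rw [hFe, h0, Int.cast_zero, mul_zero]
    obtain ⟨M', hM'0, hM't, hM'v⟩ := exists_van W (Nat.sqrt W.card) (Nat.lt_succ_sqrt _)
    have h1 : K ≤ 2 * Nat.sqrt W.card := hmin M' hM'0 (fun i j hij => hM'v (i, j) (by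
      rw [hW, Finset.mem_filter]
      exact ⟨Finset.mem_univ _, hij⟩)) _ hM't
    have h2 : Nat.sqrt W.card * Nat.sqrt W.card ≤ W.card := Nat.sqrt_le _
    have h3 : (2 * M * Nat.sqrt W.card) ^ 2 ≤ p ^ 2 := by
      refine le_trans ?_ ((Nat.mul_le_mul_left _ hWn).trans hsparse)
      calc (2 * M * Nat.sqrt W.card) ^ 2 = 4 * M ^ 2 * (Nat.sqrt W.card * Nat.sqrt W.card) := by ring
        _ ≤ 4 * M ^ 2 * W.card := Nat.mul_le_mul_left _ h2
    have h4 : 2 * M * Nat.sqrt W.card ≤ p := by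
      exact (Nat.pow_le_pow_iff_left (by norm_num)).1 h3
    calc M * K ≤ M * (2 * Nat.sqrt W.card) := Nat.mul_le_mul_left _ h1
      _ = 2 * M * Nat.sqrt W.card := by ring
      _ ≤ p := h4
  have h640 : 640 * K ≤ p := (Nat.mul_le_mul_right _ hM1).trans hMK
  have hM₀K : M₀ * K ≤ p := (Nat.mul_le_mul_right _ hM2).trans hMK
  have hKp : 4 * K < p := by
    rcases Nat.eq_zero_or_pos K with h | h <;> omega
  -- the shear
  obtain ⟨a, L', hF', hL', hL'm, hL'd, hv', hmin'⟩ := wc_shear F (p - 2) K hF (by omega) L hL0 hL hv hmin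
  obtain ⟨n', hn'⟩ : ∃ n' : ZMod p → ZMod p → ℤ, n' = fun i j => n (i + a * j) j := ⟨_, rfl⟩
  have hF'e : ∀ i j, (shr a F).evalEval i j = (b : ZMod p) ^ j.val * (n' i j : ZMod p) := by
    intro i j
    rw [shr_evalEval, hFe, hn']
  have hrow : ∀ j, ∑ i, n' i j = 0 := by
    intro j
    rw [← hR j, hn']
    exact Fintype.sum_equiv (Equiv.addRight (a * j)) _ _ fun i => rfl
  have hEn : ∑ j, ∑ i, (n' i j) ^ 2 ≤ 5 * (p : ℤ) ^ 2 := by
    refine le_trans (le_of_eq ?_) hE1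
    rw [Finset.sum_comm (s := Finset.univ) (t := Finset.univ) (f := fun i j => (n i j) ^ 2)]
    refine Finset.sum_congr rfl fun j _ => ?_
    rw [hn']
    exact Fintype.sum_equiv (Equiv.addRight (a * j)) _ _ fun i => rfl
  obtain ⟨T, hT, hcov, hlin⟩ := wc_str (shr a F) L' K hF' hKp hL' hL'm hL'd hv' hmin'
  -- the conclusion for `n'` is enough
  suffices hsuff : ∀ j, ∃ P : (ZMod p)[X], P.natDegree ≤ 42 ∧ ∀ i, (n' i j : ZMod p) = P.eval i by
    intro j
    obtain ⟨P, hP, hPe⟩ := hsuff j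
    refine ⟨P.comp (X - C (a * j)), ?_, fun i => ?_⟩
    · refine natDegree_comp_le.trans ?_
      rw [natDegree_X_sub_C, mul_one]
      exact hP
    · rw [eval_comp, eval_sub, eval_X, eval_C, ← hPe, hn']
      dsimp only
      rw [sub_add_cancel]
  obtain ⟨KT, hKT⟩ : ∃ KT, KT = (T.filter fun s => s.1 ≠ 0).card := ⟨_, rfl⟩
  obtain ⟨KH, hKH⟩ : ∃ KH, KH = (T.filter fun s => ¬ s.1 ≠ 0).card := ⟨_, rfl⟩
  have hsum : KT + KH = K := by
    rw [hKT, hKH, ← hT]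
    exact Finset.card_filter_add_card_filter_not _
  -- the rows
  have hrows : ∀ t ∈ T, t.1 = 0 → (p : ℤ) ^ 3 ≤ (64 * (K : ℤ) ^ 2 + 4 * ((max 1 KT : ℕ) : ℤ) * p) * ∑ i, (n' i t.2) ^ 2 := by
    intro t ht ht0
    obtain ⟨N, hN0, hNd, hNe⟩ := hlin t ht
    have hK1 : 1 ≤ K := by
      rw [← hT]
      exact Finset.card_pos.2 ⟨t, ht⟩
    have hbj : (b : ZMod p) ^ t.2.val ≠ 0 := pow_ne_zero _ hb0
    have h1 := wc_row p K hK1 hKp (fun i => n' i t.2) (hrow t.2) (Qt T t) (C ((b : ZMod p) ^ t.2.val)⁻¹ * N)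
      (by rw [← hT]; exact Qt_deg T t) ((natDegree_C_mul_le _ _).trans hNd) (Qt_ne T t)
      (mul_ne_zero (by rw [Ne, C_eq_zero]; exact inv_ne_zero hbj) hN0) (fun i => by
        have h2 := hNe i
        rw [ht0, zero_mul, zero_add, hF'e] at h2
        rw [eval_mul, eval_C, ← h2]
        field_simp)
    have hE0 : 0 ≤ ∑ i, (n' i t.2) ^ 2 := Finset.sum_nonneg fun i _ => sq_nonneg _
    have hp0 : (0 : ℤ) ≤ p := by positivity
    rcases h1 with h1 | h1
    · refine h1.trans ?_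
      refine mul_le_mul_of_nonneg_right ?_ hE0
      have : (0 : ℤ) ≤ 4 * ((max 1 KT : ℕ) : ℤ) * p := by positivity
      linarith
    · have h2 : ((max 1 (Finset.univ.filter fun i : ZMod p => (Qt T t).eval i = 0).card : ℕ) : ℤ) ≤ ((max 1 KT : ℕ) : ℤ) := by
        have := row_cross T t ht ht0
        rw [← hKT] at this
        exact_mod_cast max_le_max le_rfl this
      have h3 : (p : ℤ) ^ 2 ≤ 4 * ((max 1 KT : ℕ) : ℤ) * ∑ i, (n' i t.2) ^ 2 := by
        refine h1.trans ?_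
        refine mul_le_mul_of_nonneg_right ?_ hE0
        linarith
      have h4 : 0 ≤ 64 * (K : ℤ) ^ 2 * ∑ i, (n' i t.2) ^ 2 := by positivity
      have h5 := mul_le_mul_of_nonneg_right h3 hp0
      nlinarith [h4, h5]
  have hKHe : (KH : ℤ) * p ^ 3 ≤ (64 * (K : ℤ) ^ 2 + 4 * ((max 1 KT : ℕ) : ℤ) * p) * (5 * (p : ℤ) ^ 2) := by
    have h1 : ∑ t ∈ T.filter (fun s => ¬ s.1 ≠ 0), (p : ℤ) ^ 3 ≤
        ∑ t ∈ T.filter (fun s => ¬ s.1 ≠ 0), (64 * (K : ℤ) ^ 2 + 4 * ((max 1 KT : ℕ) : ℤ) * p) * ∑ i, (n' i t.2) ^ 2 := by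
      refine Finset.sum_le_sum fun t ht => ?_
      rw [Finset.mem_filter, not_not] at ht
      exact hrows t ht.1 ht.2
    rw [Finset.sum_const, nsmul_eq_mul, ← hKH, ← Finset.mul_sum] at h1
    refine h1.trans ?_
    refine mul_le_mul_of_nonneg_left ?_ (by positivity)
    refine le_trans ?_ hEn
    have hinj : Set.InjOn (fun t : ZMod p × ZMod p => t.2) (T.filter (fun s => ¬ s.1 ≠ 0) : Finset (ZMod p × ZMod p)) := by
      intro s hs t ht hst
      rw [Finset.mem_coe, Finset.mem_filter, not_not] at hs ht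
      exact Prod.ext (hs.2.trans ht.2.symm) hst
    rw [← Finset.sum_image (f := fun j => ∑ i, (n' i j) ^ 2) hinj]
    exact Finset.sum_le_sum_of_subset_of_nonneg (Finset.subset_univ _) fun j _ _ =>
      Finset.sum_nonneg fun i _ => sq_nonneg _
  have hp0 : (0 : ℤ) < p := by exact_mod_cast hp.pos
  have hKle : K ≤ 42 * max 1 KT := by
    have h1 : (KH : ℤ) * p ≤ 5 * (64 * (K : ℤ) ^ 2 + 4 * ((max 1 KT : ℕ) : ℤ) * p) := by
      have h2 : ((KH : ℤ) * p) * p ^ 2 ≤ (5 * (64 * (K : ℤ) ^ 2 + 4 * ((max 1 KT : ℕ) : ℤ) * p)) * p ^ 2 := by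
        nlinarith [hKHe]
      exact le_of_mul_le_mul_right h2 (by positivity)
    have h3 : 640 * (K : ℤ) ≤ p := by exact_mod_cast h640
    have h4 : 640 * (K : ℤ) ^ 2 ≤ K * p := by nlinarith [Int.natCast_nonneg K]
    have h5 : (2 * (KH : ℤ)) * p ≤ ((K : ℤ) + 40 * ((max 1 KT : ℕ) : ℤ)) * p := by nlinarith
    have h6 : 2 * (KH : ℤ) ≤ (K : ℤ) + 40 * ((max 1 KT : ℕ) : ℤ) := le_of_mul_le_mul_right h5 hp0
    have h7 : 2 * KH ≤ K + 40 * max 1 KT := by exact_mod_cast h6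
    have h8 : KT ≤ max 1 KT := le_max_right _ _
    omega
  -- there are no other lines
  have hKT0 : KT = 0 := by
    by_contra hne
    have hKT1 : 1 ≤ KT := Nat.one_le_iff_ne_zero.2 hne
    have hmax : max 1 KT = KT := max_eq_right hKT1
    rw [hmax] at hKle
    have hK1 : 1 ≤ K := by omega
    have h1 : ∑ t ∈ T.filter (fun t => t.1 ≠ 0), (210 : ℤ) * (p : ℤ) ^ 2 <
        ∑ t ∈ T.filter (fun t => t.1 ≠ 0), (K : ℤ) * ∑ j ∈ Finset.univ.filter (fun j : ZMod p => (Qt T t).eval ((j - t.2) / t.1) ≠ 0),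
          (n' ((j - t.2) / t.1) j) ^ 2 := by
      refine Finset.sum_lt_sum_of_nonempty (Finset.card_pos.1 (by rw [← hKT]; exact hKT1)) fun t ht => ?_
      rw [Finset.mem_filter] at ht
      obtain ⟨N, hN0, hNd, hNe⟩ := hlin t ht.1
      obtain ⟨c, hc⟩ : ∃ c : (ZMod p)[X], c = C t.1⁻¹ * X + C (-(t.1⁻¹ * t.2)) := ⟨_, rfl⟩
      have hce : ∀ j, c.eval j = (j - t.2) / t.1 := by
        intro j
        rw [hc]
        simp only [eval_add, eval_mul, eval_C, eval_X]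
        field_simp
        ring
      have hcd : c.natDegree ≤ 1 := by rw [hc]; exact natDegree_linear_le
      have hQd : (Qt T t).natDegree ≤ K := by rw [← hT]; exact Qt_deg T t
      have h2 := hnrow p K hK1 hM₀K hpb (fun j => n' ((j - t.2) / t.1) j) ((Qt T t).comp c) (N.comp c)
        (natDegree_comp_le.trans ((Nat.mul_le_mul hQd hcd).trans (le_of_eq (mul_one K))))
        (natDegree_comp_le.trans ((Nat.mul_le_mul hNd hcd).trans (le_of_eq (mul_one K))))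
        (by rw [hc]; exact comp_lin_ne _ (Qt_ne T t) _ _ (inv_ne_zero ht.2))
        (by rw [hc]; exact comp_lin_ne _ hN0 _ _ (inv_ne_zero ht.2)) (fun j => by
          rw [eval_comp, eval_comp, hce]
          have h3 := hNe ((j - t.2) / t.1)
          have e1 : t.1 * ((j - t.2) / t.1) + t.2 = j := by
            have := ht.2
            field_simp
            ring
          rw [e1, hF'e] at h3
          exact h3)
      simp only [eval_comp, hce] at h2
      exact_mod_cast h2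
    rw [Finset.sum_const, nsmul_eq_mul, ← hKT, ← Finset.mul_sum] at h1
    have h2 := (off_energy n' T).trans hEn
    have h3 : (K : ℤ) * ∑ t ∈ T.filter (fun t => t.1 ≠ 0), ∑ j ∈ Finset.univ.filter (fun j : ZMod p => (Qt T t).eval ((j - t.2) / t.1) ≠ 0),
          (n' ((j - t.2) / t.1) j) ^ 2 ≤ K * (5 * (p : ℤ) ^ 2) := mul_le_mul_of_nonneg_left h2 (by positivity)
    have h4 : (KT : ℤ) * (210 * (p : ℤ) ^ 2) < K * (5 * (p : ℤ) ^ 2) := h1.trans_le h3
    have h5 : (K : ℤ) ≤ 42 * KT := by exact_mod_cast hKle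
    have h6 : (0 : ℤ) < (p : ℤ) ^ 2 := by positivity
    nlinarith
  have hK42 : K ≤ 42 := by
    rw [hKT0] at hKle
    omega
  have hall : ∀ t ∈ T, t.1 = 0 := by
    intro t ht
    by_contra h1
    have : 0 < (T.filter fun s => s.1 ≠ 0).card := Finset.card_pos.2 ⟨t, Finset.mem_filter.2 ⟨ht, h1⟩⟩
    omega
  intro j
  have hbj : (b : ZMod p) ^ j.val ≠ 0 := pow_ne_zero _ hb0
  by_cases hj : ∃ t ∈ T, t.2 = j
  · obtain ⟨t, ht, rfl⟩ := hj
    obtain ⟨N, hN0, hNd, hNe⟩ := hlin t ht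
    obtain ⟨κ, hκ⟩ : ∃ κ, κ = ∏ s ∈ T.erase t, (t.2 - s.2) := ⟨_, rfl⟩
    have hκ0 : κ ≠ 0 := by
      rw [hκ, Finset.prod_ne_zero_iff]
      intro s hs h1
      rw [Finset.mem_erase] at hs
      exact hs.1 (Prod.ext ((hall s hs.2).trans (hall t ht).symm) (sub_eq_zero.1 h1).symm)
    refine ⟨C (((b : ZMod p) ^ t.2.val)⁻¹ * κ⁻¹) * N, ((natDegree_C_mul_le _ _).trans hNd).trans hK42, fun i => ?_⟩
    have h1 := hNe i
    rw [hall t ht, zero_mul, zero_add, hF'e, Qt_eval] at h1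
    have h2 : ∏ s ∈ T.erase t, (t.1 * i + t.2 - (s.1 * i + s.2)) = κ := by
      rw [hκ]
      refine Finset.prod_congr rfl fun s hs => ?_
      rw [Finset.mem_erase] at hs
      rw [hall t ht, hall s hs.2, zero_mul, zero_add, zero_add]
    rw [h2] at h1
    rw [eval_mul, eval_C, ← h1]
    field_simp
  · refine ⟨0, by simp, fun i => ?_⟩
    rw [eval_zero]
    by_contra h1
    have h2 : (shr a F).evalEval i j ≠ 0 := by
      rw [hF'e]
      exact mul_ne_zero hbj h1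
    obtain ⟨t, ht, h3⟩ := hcov i j h2
    rw [hall t ht, zero_mul, zero_add] at h3
    exact hj ⟨t, ht, h3.symm⟩

theorem wc_main (b : ℕ) (hb : 2 ≤ b) : ∃ q p₀ : ℕ, q.Prime ∧ ¬ q ∣ b ∧
    ∀ (p : ℕ) [Fact p.Prime], p₀ ≤ p → ∀ n m : ZMod p → ZMod p → ℤ,
      ∑ i, ∑ j, (n i j) ^ 2 ≤ 5 * (p : ℤ) ^ 2 → ∑ i, ∑ j, (m i j) ^ 2 ≤ 5 * (p : ℤ) ^ 2 →
      (∀ j, ∑ i, n i j = 0) →
      (∀ i j, (q : ℤ) ∣ m ((q : ZMod p) * i) ((q : ZMod p) * j) - (b : ℤ) ^ ((q * j.val) / p) * n i j) →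
      (∀ k l : ℕ, k < p → l < p → p - 1 ≤ k + l →
        (p : ℤ) ∣ ∑ s ∈ Finset.range (k + 1), ∑ t ∈ Finset.range (l + 1),
          (-1) ^ ((k - s) + (l - t)) * (k.choose s : ℤ) * (l.choose t : ℤ) * ((b : ℤ) ^ t * n (s : ZMod p) (t : ZMod p))) →
      ∀ j, ∃ P : (ZMod p)[X], P.natDegree ≤ 42 ∧ ∀ i, (n i j : ZMod p) = P.eval i := by
  obtain ⟨D, p₁, hD, hcore⟩ := wc_core b hb
  obtain ⟨q, p₀, hq, hqb, hsp⟩ := wc_sparse b hb D hD
  refine ⟨q, max p₀ p₁, hq, hqb, ?_⟩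
  intro p _ hp₀ n m hE1 hE2 hR hFr hCo
  exact hcore p ((le_max_right _ _).trans hp₀) n (hsp p ((le_max_left _ _).trans hp₀) n m hE1 hE2 hFr) hE1 hR hCo

end Pool.Agent.H61.WC
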