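import Pool.Agent.H61.WC.Div

/-!
# [H61 WC Ns] THEOREM W (MP_187c26_nt), combinatorial half: polynomials which vanish on `F_p × F_p`

`II p = X ^ p - X`, `JJ p = Y ^ p - Y`.
-/

set_option autoImplicit false

open Polynomial
open scoped Polynomial.Bivariate

namespace Pool.Agent.H61.WC

variable (p : ℕ) [hp : Fact p.Prime]

/-- `X ^ p - X` -/
noncomputable def II : (ZMod p)[X][Y] := C (X ^ p - X)

/-- `Y ^ p - Y` -/
noncomputable def JJ : (ZMod p)[X][Y] := Y ^ p - Y

theorem xp_monic : (X ^ p - X : (ZMod p)[X]).Monic := by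
  refine monic_X_pow_sub ?_
  rw [degree_X]
  exact_mod_cast hp.out.one_lt

theorem xp_deg : (X ^ p - X : (ZMod p)[X]).natDegree = p :=
  FiniteField.X_pow_card_sub_X_natDegree_eq (ZMod p) hp.out.one_lt

theorem xp_eval (x : ZMod p) : (X ^ p - X : (ZMod p)[X]).eval x = 0 := by
  rw [eval_sub, eval_pow, eval_X, ZMod.pow_card, sub_self]

theorem jj_monic : (JJ p).Monic := by
  refine monic_X_pow_sub ?_
  rw [degree_X]
  exact_mod_cast hp.out.one_lt

theorem jj_deg : (JJ p).natDegree = p := by
  unfold JJ
  rw [natDegree_sub_eq_left_of_natDegree_lt, natDegree_X_pow]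
  rw [natDegree_X_pow, natDegree_X]
  exact hp.out.one_lt

theorem jj_td : TD p (JJ p) := by
  refine TD.sub ?_ (td_Y.mono hp.out.one_lt.le)
  have := (td_Y (k := ZMod p)).pow p
  rwa [mul_one] at this

theorem evalEval_II (x y : ZMod p) : (II p).evalEval x y = 0 := by
  unfold II
  rw [evalEval, eval_C, xp_eval]

theorem evalEval_JJ (x y : ZMod p) : (JJ p).evalEval x y = 0 := by
  unfold JJ
  rw [evalEval, eval_sub, eval_pow, eval_X, ← C_pow, ZMod.pow_card, sub_self, eval_zero]

/-- a polynomial of degree `< p` which vanishes on `F_p` is `0` -/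
theorem zero_of_lt {f : (ZMod p)[X]} (hd : f.natDegree < p) (h : ∀ x, f.eval x = 0) : f = 0 := by
  refine eq_zero_of_natDegree_lt_card_of_eval_eq_zero f (f := fun x : ZMod p => x) Function.injective_id h ?_
  rw [ZMod.card]
  exact hd

theorem xp_dvd {f : (ZMod p)[X]} (h : ∀ x, f.eval x = 0) : (X ^ p - X : (ZMod p)[X]) ∣ f := by
  have h1 : f %ₘ (X ^ p - X) = 0 := by
    refine zero_of_lt p ?_ fun x => ?_
    · have := natDegree_modByMonic_lt f (xp_monic p) (fun h0 => by
        have := xp_deg p
        rw [h0, natDegree_one] at this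
        exact hp.out.ne_zero this.symm)
      rwa [xp_deg] at this
    · have h2 := congrArg (eval x) (modByMonic_add_div f (X ^ p - X : (ZMod p)[X]))
      rw [eval_add, eval_mul, xp_eval, zero_mul, add_zero, h x] at h2
      exact h2
  exact (modByMonic_eq_zero_iff_dvd (xp_monic p)).1 h1

theorem wc_null (N : ℕ) (P : (ZMod p)[X][Y]) (hP : TD N P) (h0 : ∀ i j, P.evalEval i j = 0) :
    ∃ u v : (ZMod p)[X][Y], TD (N - p) u ∧ TD (N - p) v ∧ P = u * II p + v * JJ p := by
  classical
  have hd := jj_deg p
  obtain ⟨v, R, e1, e2, e3, e4⟩ := td_div (JJ p) (jj_monic p) (by rw [hd]; exact hp.out.one_lt.le)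
    (by rw [hd]; exact jj_td p) N P hP
  rw [hd] at e2 e4
  have hR : ∀ i j, R.evalEval i j = 0 := by
    intro i j
    have := h0 i j
    rw [e1, evalEval_add, evalEval_mul, evalEval_JJ, zero_mul, zero_add] at this
    exact this
  have hRc : ∀ n x, (R.coeff n).eval x = 0 := by
    intro n x
    have h1 : R.map (evalRingHom x) = 0 := by
      refine zero_of_lt p (natDegree_map_le.trans_lt e4) fun y => ?_
      rw [map_evalRingHom_eval]
      exact hR x y
    have h2 := congrArg (fun f => coeff f n) h1
    simp only [coeff_map, coeff_zero] at h2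
    exact h2
  choose w hw using fun n => xp_dvd p (hRc n)
  refine ⟨∑ j ∈ R.support, monomial j (w j), v, ?_, e2, ?_⟩
  · refine TD.sum _ _ fun j hj => ?_
    intro n hn
    rw [coeff_monomial] at hn ⊢
    split_ifs at hn ⊢ with h
    · subst h
      have h1 := e3.coeff_le j
      have h2 := e3 j (mem_support_iff.1 hj)
      have h3 : (R.coeff j).natDegree = p + (w j).natDegree := by
        conv_lhs => rw [hw j]
        rw [(xp_monic p).natDegree_mul' hn, xp_deg]
      omega
    · exact absurd rfl hn
  · have h1 : R = (∑ j ∈ R.support, monomial j (w j)) * II p := by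
      unfold II
      rw [Finset.sum_mul]
      conv_lhs => rw [R.as_sum_support]
      refine Finset.sum_congr rfl fun j _ => ?_
      rw [← monomial_zero_left, monomial_mul_monomial, add_zero, mul_comm (w j), ← hw j]
    rw [← h1, e1]
    ring

end Pool.Agent.H61.WC
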