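import Pool.Agent.H61.WC.Str

/-!
# [H61 WC Spl] THEOREM W (MP_187c26_nt), combinatorial half: the lines

* `split_lines`: `L` is the product of `K` different lines.
* `wc_str`: on each line `F` times the product of the other lines is a polynomial `N ≠ 0` of degree `≤ K`.
-/

set_option autoImplicit false

open Polynomial
open scoped Polynomial.Bivariate

namespace Pool.Agent.H61.WC

variable {p : ℕ} [hp : Fact p.Prime]

theorem ln_td (t : ZMod p × ZMod p) : TD 1 (ln p t) := by
  unfold ln
  exact td_Y.sub (td_C natDegree_linear_le)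

theorem prod_ln_td (T : Finset (ZMod p × ZMod p)) : TD T.card (∏ t ∈ T, ln p t) := by
  classical
  induction T using Finset.induction_on with
  | empty => simpa using (td_one (k := ZMod p))
  | insert t T ht ih =>
    rw [Finset.prod_insert ht, Finset.card_insert_of_notMem ht]
    exact ((ln_td t).mul ih).mono (by omega)

theorem prod_ln_eval (T : Finset (ZMod p × ZMod p)) (x y : ZMod p) :
    (∏ t ∈ T, ln p t).evalEval x y = ∏ t ∈ T, (y - (t.1 * x + t.2)) := by
  have h := map_prod (evalEvalRingHom x y) (fun t => ln p t) T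
  rw [coe_evalEvalRingHom] at h
  rw [h]
  exact Finset.prod_congr rfl fun t _ => ln_eval p t x y

theorem split_lines (F L : (ZMod p)[X][Y]) (K : ℕ) (hF : TD (p - 2) F) (hK : 4 * K < p) (hL : TD K L) (hm : L.Monic)
    (hd : L.natDegree = K) (h0 : Van p F L) (hmin : Mn p F K) :
    ∃ T : Finset (ZMod p × ZMod p), T.card = K ∧ L = ∏ t ∈ T, ln p t := by
  classical
  have key : ∀ n, ∀ M : (ZMod p)[X][Y], M.Monic → M ∣ L → M.natDegree = n →
      ∃ S : Multiset (ZMod p × ZMod p), M = (S.map (ln p)).prod := by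
    intro n
    induction n with
    | zero =>
      intro M hM _ hn
      exact ⟨0, by rw [Multiset.map_zero, Multiset.prod_zero]; exact eq_one_of_monic_natDegree_zero hM hn⟩
    | succ n ih =>
      intro M hM hML hn
      have hMu : ¬ IsUnit M := by
        intro h
        have := hM.eq_one_of_isUnit h
        rw [this, natDegree_one] at hn
        omega
      obtain ⟨g₀, hg₀, c, hc⟩ := WfDvdMonoid.exists_irreducible_factor hMu hM.ne_zero
      have hlc : g₀.leadingCoeff * c.leadingCoeff = 1 := by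
        have := hM.leadingCoeff
        rwa [hc, leadingCoeff_mul] at this
      have hcu : IsUnit (C c.leadingCoeff : (ZMod p)[X][Y]) := isUnit_C.2 (IsUnit.of_mul_eq_one _ (by rw [mul_comm]; exact hlc))
      obtain ⟨g, hg⟩ : ∃ g : (ZMod p)[X][Y], g = C c.leadingCoeff * g₀ := ⟨_, rfl⟩
      have hgm : g.Monic := by
        rw [Monic, hg, leadingCoeff_mul, leadingCoeff_C, mul_comm, hlc]
      have hgi : Irreducible g := by
        rw [hg]
        exact (irreducible_isUnit_mul hcu).2 hg₀
      have hgM : g ∣ M := by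
        rw [hg, hcu.mul_left_dvd, hc]
        exact dvd_mul_right _ _
      obtain ⟨t, ht⟩ := factor_line F L K hF hK hL hm hd h0 hmin g hgi hgm (hgM.trans hML)
      obtain ⟨M', hM'⟩ := hgM
      have hM'm : M'.Monic := by
        have := hM.leadingCoeff
        rwa [hM', leadingCoeff_mul, hgm.leadingCoeff, one_mul] at this
      have hM'd : M'.natDegree = n := by
        have := hgm.natDegree_mul hM'm
        rw [← hM', hn, ht, ln_deg] at this
        omega
      obtain ⟨S, hS⟩ := ih M' hM'm ((Dvd.intro_left _ hM'.symm).trans hML) hM'd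
      refine ⟨t ::ₘ S, ?_⟩
      rw [Multiset.map_cons, Multiset.prod_cons, ← hS, ← ht, ← hM']
  obtain ⟨S, hS⟩ := key _ L hm dvd_rfl rfl
  have hnd : S.Nodup := by
    rw [Multiset.nodup_iff_ne_cons_cons]
    rintro t S' rfl
    rw [Multiset.map_cons, Multiset.map_cons, Multiset.prod_cons, Multiset.prod_cons] at hS
    obtain ⟨w, hw⟩ : ∃ w, w = ln p t * (S'.map (ln p)).prod := ⟨_, rfl⟩
    rw [← hw] at hS
    have hw0 : w ≠ 0 := by
      rintro h1
      rw [h1, mul_zero] at hS
      exact hm.ne_zero hS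
    have hwm : w.Monic := by
      have := hm.leadingCoeff
      rwa [hS, leadingCoeff_mul, (ln_monic p t).leadingCoeff, one_mul] at this
    obtain ⟨a, b, hab, hta, htb⟩ := td_mul_ge (ln p t) w (ln_monic p t).ne_zero hw0 K (by rw [← hS]; exact hL)
    have h1 := hta.natDegree_le
    have h2 := htb.natDegree_le
    rw [ln_deg] at h1
    have hv : Van p F w := by
      intro i j hij
      have h3 := h0 i j hij
      rw [hS, evalEval_mul] at h3
      rcases mul_eq_zero.1 h3 with h4 | h4
      · rw [hw, evalEval_mul, h4, zero_mul]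
      · exact h4
    have := hmin w hw0 hv b htb
    omega
  have hL' : L = ∏ t ∈ (⟨S, hnd⟩ : Finset (ZMod p × ZMod p)), ln p t := hS
  refine ⟨⟨S, hnd⟩, ?_, hL'⟩
  rw [← hd, hL', natDegree_prod_of_monic _ _ fun t _ => ln_monic p t]
  simp [ln_deg]

/-- the other lines on the line `t`, with the parameter `X` -/
noncomputable def Qt (T : Finset (ZMod p × ZMod p)) (t : ZMod p × ZMod p) : (ZMod p)[X] :=
  ∏ s ∈ T.erase t, (C (t.1 - s.1) * X + C (t.2 - s.2))

theorem Qt_eval (T : Finset (ZMod p × ZMod p)) (t : ZMod p × ZMod p) (i : ZMod p) :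
    (Qt T t).eval i = ∏ s ∈ T.erase t, ((t.1 * i + t.2) - (s.1 * i + s.2)) := by
  unfold Qt
  rw [eval_prod]
  refine Finset.prod_congr rfl fun s _ => ?_
  simp only [eval_add, eval_mul, eval_C, eval_X]
  ring

theorem Qt_ne (T : Finset (ZMod p × ZMod p)) (t : ZMod p × ZMod p) : Qt T t ≠ 0 := by
  unfold Qt
  rw [Finset.prod_ne_zero_iff]
  intro s hs h
  have h1 := congrArg (fun f : (ZMod p)[X] => f.coeff 0) h
  have h2 := congrArg (fun f : (ZMod p)[X] => f.coeff 1) h
  simp at h1 h2
  exact (Finset.ne_of_mem_erase hs) (Prod.ext (by linear_combination -h2) (by linear_combination -h1))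

theorem Qt_deg (T : Finset (ZMod p × ZMod p)) (t : ZMod p × ZMod p) : (Qt T t).natDegree ≤ T.card := by
  unfold Qt
  refine (natDegree_prod_le _ _).trans ?_
  refine (Finset.sum_le_card_nsmul _ _ 1 fun s _ => natDegree_linear_le).trans ?_
  rw [smul_eq_mul, mul_one]
  exact Finset.card_le_card (Finset.erase_subset _ _)

theorem wc_str (F L : (ZMod p)[X][Y]) (K : ℕ) (hF : TD (p - 2) F) (hK : 4 * K < p) (hL : TD K L) (hm : L.Monic)
    (hd : L.natDegree = K) (h0 : Van p F L) (hmin : Mn p F K) :
    ∃ T : Finset (ZMod p × ZMod p), T.card = K ∧ (∀ i j, F.evalEval i j ≠ 0 → ∃ t ∈ T, j = t.1 * i + t.2) ∧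
      ∀ t ∈ T, ∃ N : (ZMod p)[X], N ≠ 0 ∧ N.natDegree ≤ K ∧
        ∀ i, F.evalEval i (t.1 * i + t.2) * (Qt T t).eval i = N.eval i := by
  classical
  have hp2 := hp.out.two_le
  obtain ⟨T, hT, hLT⟩ := split_lines F L K hF hK hL hm hd h0 hmin
  have hvan : ∀ i j, (L * F).evalEval i j = 0 := by
    intro i j
    rw [evalEval_mul]
    by_cases h3 : F.evalEval i j = 0
    · rw [h3, mul_zero]
    · rw [h0 i j h3, zero_mul]
  obtain ⟨u, v, hu, hv, huv⟩ := wc_null p (K + (p - 2)) (L * F) (hL.mul hF) hvan
  have hv' : TD K v := hv.mono (by omega)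
  refine ⟨T, hT, fun i j hij => ?_, fun t ht => ?_⟩
  · have h1 := h0 i j hij
    rw [hLT, prod_ln_eval, Finset.prod_eq_zero_iff] at h1
    obtain ⟨t, ht, h2⟩ := h1
    exact ⟨t, ht, sub_eq_zero.1 h2⟩
  have hval : ∀ i, F.evalEval i (t.1 * i + t.2) * (Qt T t).eval i = ((-v).eval (C t.1 * X + C t.2)).eval i := by
    intro i
    rw [evalEval_line]
    simp only [eval_add, eval_mul, eval_C, eval_X]
    have h1 := congrArg (fun P => (Polynomial.derivative P).evalEval i (t.1 * i + t.2)) huv
    simp only [derivative_add, derivative_mul, dY_II, dY_JJ, evalEval_add, evalEval_mul, evalEval_II, evalEval_JJ,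
      evalEval_neg, evalEval_one, evalEval_zero] at h1
    have h2 : L = ln p t * ∏ s ∈ T.erase t, ln p s := by
      rw [hLT, Finset.mul_prod_erase T _ ht]
    have h3 : L.evalEval i (t.1 * i + t.2) = 0 := by
      rw [h2, evalEval_mul, ln_eval, sub_self, zero_mul]
    have h4 : (Polynomial.derivative L).evalEval i (t.1 * i + t.2) = (Qt T t).eval i := by
      rw [h2, derivative_mul, evalEval_add, evalEval_mul, evalEval_mul, ln_eval, sub_self, zero_mul, add_zero,
        prod_ln_eval, Qt_eval]
      have h5 : Polynomial.derivative (ln p t) = 1 := by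
        unfold ln
        exact derivative_X_sub_C _
      rw [h5, evalEval_one, one_mul]
    rw [h3, h4] at h1
    rw [evalEval_neg]
    linear_combination h1
  refine ⟨(-v).eval (C t.1 * X + C t.2), ?_, natDegree_line hv'.neg _ natDegree_linear_le, hval⟩
  intro h1
  obtain ⟨w, hw⟩ : ∃ w, w = ∏ s ∈ T.erase t, ln p s := ⟨_, rfl⟩
  have hw0 : w ≠ 0 := by
    rw [hw, Finset.prod_ne_zero_iff]
    exact fun s _ => (ln_monic p s).ne_zero
  have htd : TD (K - 1) w := by
    have := prod_ln_td (T.erase t)
    rwa [Finset.card_erase_of_mem ht, hT, ← hw] at this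
  have hvw : Van p F w := by
    intro i j hij
    have h2 := h0 i j hij
    rw [hLT, ← Finset.mul_prod_erase T _ ht, evalEval_mul, ← hw, ln_eval] at h2
    rcases mul_eq_zero.1 h2 with h3 | h3
    · have h4 : j = t.1 * i + t.2 := sub_eq_zero.1 h3
      have h5 := hval i
      rw [h1, eval_zero, Qt_eval, ← h4] at h5
      rcases mul_eq_zero.1 h5 with h6 | h6
      · exact absurd h6 hij
      · rw [hw, prod_ln_eval]
        exact h6
    · exact h3
  have h2 := hmin w hw0 hvw _ htd
  have h3 : 0 < T.card := Finset.card_pos.2 ⟨t, ht⟩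
  omega

end Pool.Agent.H61.WC
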