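import Pool.Agent.H61.WC.Loc

/-!
# [H61 WC Str] THEOREM W (MP_187c26_nt), combinatorial half: the structure theorem

`F` of total degree `≤ p - 2`, `L` monic in `Y` of minimal total degree `K` among the polynomials `≠ 0` which vanish where `F` does not vanish, `4 K < p`: `L` is a product of `K` different lines `Y = a X + b`, and
`F * (product of the other lines)` is a polynomial of degree `≤ K` on every one of them.
-/

set_option autoImplicit false

open Polynomial
open scoped Polynomial.Bivariate

namespace Pool.Agent.H61.WC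

variable (p : ℕ) [hp : Fact p.Prime]

/-- the line `Y = a X + b` -/
noncomputable def ln (t : ZMod p × ZMod p) : (ZMod p)[X][Y] := Y - C (C t.1 * X + C t.2)

theorem ln_monic (t : ZMod p × ZMod p) : (ln p t).Monic := monic_X_sub_C _

theorem ln_deg (t : ZMod p × ZMod p) : (ln p t).natDegree = 1 := natDegree_X_sub_C _

theorem ln_eval (t : ZMod p × ZMod p) (x y : ZMod p) : (ln p t).evalEval x y = y - (t.1 * x + t.2) := by
  unfold ln
  simp [evalEval]

theorem ln_inj : Function.Injective (ln p) := by
  intro s t h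
  have h1 : (C s.1 * X + C s.2 : (ZMod p)[X]) = C t.1 * X + C t.2 := by
    have h2 := congrArg (fun P : (ZMod p)[X][Y] => P.coeff 0) h
    simp [ln] at h2
    linear_combination -h2
  have h3 := congrArg (fun f : (ZMod p)[X] => f.coeff 0) h1
  have h4 := congrArg (fun f : (ZMod p)[X] => f.coeff 1) h1
  simp at h3 h4
  exact Prod.ext h4 h3

/-- `M` vanishes where `F` does not -/
def Van (F M : (ZMod p)[X][Y]) : Prop := ∀ i j, F.evalEval i j ≠ 0 → M.evalEval i j = 0

/-- the derivation `g_Y ∂_X - g_X ∂_Y` -/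
noncomputable def DD (g P : (ZMod p)[X][Y]) : (ZMod p)[X][Y] :=
  Polynomial.derivative g * dX P - dX g * Polynomial.derivative P

variable {p}

theorem DD_add (g P Q : (ZMod p)[X][Y]) : DD p g (P + Q) = DD p g P + DD p g Q := by
  unfold DD
  rw [dX_add, derivative_add]
  ring

theorem DD_mul (g P Q : (ZMod p)[X][Y]) : DD p g (P * Q) = DD p g P * Q + P * DD p g Q := by
  unfold DD
  rw [dX_mul, derivative_mul]
  ring

theorem DD_self (g : (ZMod p)[X][Y]) : DD p g g = 0 := by
  unfold DD
  ring

theorem DD_II (g : (ZMod p)[X][Y]) : DD p g (II p) = -Polynomial.derivative g := by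
  unfold DD
  rw [dX_II, dY_II]
  ring

theorem DD_JJ (g : (ZMod p)[X][Y]) : DD p g (JJ p) = dX g := by
  unfold DD
  rw [dX_JJ, dY_JJ]
  ring

/-- the tangent at a point over `F_p` is defined over `F_p`: `g ∣ I g_X + J g_Y` -/
theorem frob_tangent (K : ℕ) (hK : 4 * K < p) (g w F u v : (ZMod p)[X][Y]) (hg : Prime g) (hm : g.Monic)
    (h1 : 1 ≤ g.natDegree) (hgK : g.natDegree ≤ K) (ht : TD g.natDegree g) (hu : TD K u) (hv : TD K v)
    (h : g * w * F = u * II p + v * JJ p) (hn : ¬ (g ∣ u ∧ g ∣ v)) :
    g ∣ II p * dX g + JJ p * Polynomial.derivative g := by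
  have hp0 := hp.out.pos
  obtain ⟨E, hE⟩ : ∃ E, E = u * Polynomial.derivative g - v * dX g := ⟨_, rfl⟩
  obtain ⟨V, hV⟩ : ∃ V, V = v * DD p g u - u * DD p g v := ⟨_, rfl⟩
  have e1 : g * DD p g (w * F) = II p * DD p g u + JJ p * DD p g v - E := by
    have h2 := congrArg (DD p g) h
    rw [mul_assoc, DD_mul g g, DD_self, zero_mul, zero_add, DD_add, DD_mul g u, DD_mul g v, DD_II, DD_JJ] at h2
    rw [h2, hE]
    ring
  have e2 : II p * V - v * E = g * (v * DD p g (w * F) - w * F * DD p g v) := by
    rw [hV]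
    linear_combination (-v) * e1 + DD p g v * h
  have e3 : JJ p * V + u * E = g * (w * F * DD p g u - u * DD p g (w * F)) := by
    rw [hV]
    linear_combination u * e1 - DD p g u * h
  have tgY : TD K (Polynomial.derivative g) := ht.derivative.mono (by omega)
  have tgX : TD K (dX g) := ht.dX.mono (by omega)
  have tE : TD (2 * K) E := by
    rw [hE]
    exact ((hu.mul tgY).mono (by omega)).sub ((hv.mul tgX).mono (by omega))
  have tDu : TD (2 * K) (DD p g u) := by
    unfold DD
    exact ((tgY.mul (hu.dX.mono (Nat.sub_le _ _))).mono (by omega)).sub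
      ((tgX.mul (hu.derivative.mono (Nat.sub_le _ _))).mono (by omega))
  have tDv : TD (2 * K) (DD p g v) := by
    unfold DD
    exact ((tgY.mul (hv.dX.mono (Nat.sub_le _ _))).mono (by omega)).sub
      ((tgX.mul (hv.derivative.mono (Nat.sub_le _ _))).mono (by omega))
  have tV : TD (3 * K) V := by
    rw [hV]
    exact ((hv.mul tDu).mono (by omega)).sub ((hu.mul tDv).mono (by omega))
  have hgV : g ∣ V := by
    refine wc_T g hm h1 ht p hp.out.one_lt.le V (v * E + C X * V) ?_ ?_
    · exact ((hv.mul tE).mono (by omega)).add ((td_CX.mul tV).mono (by omega))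
    · refine ⟨v * DD p g (w * F) - w * F * DD p g v, ?_⟩
      rw [← e2]
      unfold II
      rw [C_sub]
      ring
  have hgE : g ∣ E := by
    have h2 : g ∣ v * E := by
      have := dvd_sub (hgV.mul_left (II p)) (Dvd.intro _ e2.symm)
      rwa [sub_sub_cancel] at this
    have h3 : g ∣ u * E := by
      have := dvd_sub (Dvd.intro _ e3.symm : g ∣ JJ p * V + u * E) (hgV.mul_left (JJ p))
      rwa [add_sub_cancel_left] at this
    rcases hg.dvd_or_dvd h2 with h4 | h4
    · rcases hg.dvd_or_dvd h3 with h5 | h5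
      · exact absurd ⟨h5, h4⟩ hn
      · exact h5
    · exact h4
  obtain ⟨H, hH⟩ : ∃ H, H = II p * dX g + JJ p * Polynomial.derivative g := ⟨_, rfl⟩
  rw [← hH]
  have h2 : g ∣ u * H := by
    have e4 : u * H = g * (w * F * dX g) + JJ p * E := by
      rw [hH, hE]
      linear_combination (-dX g) * h
    rw [e4]
    exact dvd_add (dvd_mul_right _ _) (hgE.mul_left _)
  have h3 : g ∣ v * H := by
    have e4 : v * H = g * (w * F * Polynomial.derivative g) - II p * E := by
      rw [hH, hE]
      linear_combination (-Polynomial.derivative g) * h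
    rw [e4]
    exact dvd_sub (dvd_mul_right _ _) (hgE.mul_left _)
  rcases hg.dvd_or_dvd h2 with h4 | h4
  · rcases hg.dvd_or_dvd h3 with h5 | h5
    · exact absurd ⟨h4, h5⟩ hn
    · exact h5
  · exact h4

/-- minimality: `K` is the minimal total degree of a polynomial `≠ 0` which vanishes where `F` does not -/
def Mn (p : ℕ) [Fact p.Prime] (F : (ZMod p)[X][Y]) (K : ℕ) : Prop :=
  ∀ M : (ZMod p)[X][Y], M ≠ 0 → Van p F M → ∀ N, TD N M → K ≤ N

theorem factor_line (F L : (ZMod p)[X][Y]) (K : ℕ) (hF : TD (p - 2) F) (hK : 4 * K < p) (hL : TD K L) (hm : L.Monic)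
    (hd : L.natDegree = K) (h0 : Van p F L) (hmin : Mn p F K) (g : (ZMod p)[X][Y]) (hg : Irreducible g) (hgm : g.Monic)
    (hgL : g ∣ L) : ∃ t, g = ln p t := by
  have hp2 := hp.out.two_le
  obtain ⟨w, hw⟩ := hgL
  have hL0 : L ≠ 0 := hm.ne_zero
  have hw0 : w ≠ 0 := by
    rintro rfl
    rw [mul_zero] at hw
    exact hL0 hw
  have hg0 : g ≠ 0 := hg.ne_zero
  have hwm : w.Monic := by
    have := hm.leadingCoeff
    rw [hw, leadingCoeff_mul, hgm.leadingCoeff, one_mul] at this
    exact this
  have hgd : 1 ≤ g.natDegree := by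
    by_contra h1
    have h2 : g.natDegree = 0 := by omega
    have h3 := eq_one_of_monic_natDegree_zero hgm h2
    exact hg.not_isUnit (by rw [h3]; exact isUnit_one)
  have hsum : g.natDegree + w.natDegree = K := by
    rw [← hd, hw, hgm.natDegree_mul hwm]
  obtain ⟨a, b, hab, hta, htb⟩ := td_mul_ge g w hg0 hw0 K (by rw [← hw]; exact hL)
  have h1 := hta.natDegree_le
  have h2 := htb.natDegree_le
  have ha : a = g.natDegree := by omega
  have hb : b = w.natDegree := by omega
  subst ha hb
  -- Nullstellensatz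
  have hvan : ∀ i j, (L * F).evalEval i j = 0 := by
    intro i j
    rw [evalEval_mul]
    by_cases h3 : F.evalEval i j = 0
    · rw [h3, mul_zero]
    · rw [h0 i j h3, zero_mul]
  obtain ⟨u, v, hu, hv, huv⟩ := wc_null p (K + (p - 2)) (L * F) (hL.mul hF) hvan
  have hu' : TD K u := hu.mono (by omega)
  have hv' : TD K v := hv.mono (by omega)
  have hn : ¬ (g ∣ u ∧ g ∣ v) := by
    rintro ⟨⟨u', rfl⟩, ⟨v', rfl⟩⟩
    have h3 : w * F = u' * II p + v' * JJ p := by
      apply mul_left_cancel₀ hg0
      rw [hw] at huv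
      linear_combination huv
    have h4 : Van p F w := by
      intro i j hij
      have h5 := congrArg (fun P => evalEval i j P) h3
      simp only [evalEval_add, evalEval_mul, evalEval_II, evalEval_JJ, mul_zero, add_zero] at h5
      rcases mul_eq_zero.1 h5 with h6 | h6
      · exact h6
      · exact absurd h6 hij
    have := hmin w hw0 h4 _ htb
    omega
  have hprime : Prime g := hg.prime
  obtain ⟨r, hr⟩ := frob_tangent K hK g w F u v hprime hgm hgd (by omega) hta hu' hv' (by rw [← hw]; exact huv) hn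
  -- a smooth point
  have hdg0 : Polynomial.derivative g ≠ 0 := by
    intro h3
    have h4 := congrArg (fun P : (ZMod p)[X][Y] => P.coeff (g.natDegree - 1)) h3
    simp only [coeff_derivative, coeff_zero] at h4
    rw [Nat.sub_add_cancel hgd, hgm.coeff_natDegree, one_mul] at h4
    have h5 : ((g.natDegree : ℕ) : (ZMod p)[X]) = 0 := by
      rw [← h4]
      have : g.natDegree = (g.natDegree - 1) + 1 := by omega
      conv_lhs => rw [this]
      push_cast
      rfl
    have h6 : ((g.natDegree : ℕ) : ZMod p) = 0 := by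
      rw [← C_eq_natCast] at h5
      exact C_eq_zero.1 h5
    rw [ZMod.natCast_eq_zero_iff] at h6
    have := Nat.le_of_dvd (by omega) h6
    omega
  have hpt : ¬ Van p F (w * Polynomial.derivative g) := by
    intro h3
    have h4 := hmin _ (mul_ne_zero hw0 hdg0) h3 (w.natDegree + (g.natDegree - 1)) (htb.mul hta.derivative)
    omega
  unfold Van at hpt
  push Not at hpt
  obtain ⟨i, j, h3, h4⟩ := hpt
  rw [evalEval_mul] at h4
  have h5 : g.evalEval i j = 0 := by
    have h6 := h0 i j h3
    rw [hw, evalEval_mul] at h6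
    rcases mul_eq_zero.1 h6 with h7 | h7
    · exact h7
    · exact absurd h7 (left_ne_zero_of_mul h4)
  obtain ⟨s, t, -, h6⟩ := wc_loc p g r g.natDegree (by omega) hta hr i j h5 (right_ne_zero_of_mul h4)
  refine ⟨(s, t), ?_⟩
  have h7 : (ln p (s, t)) ∣ g := h6
  obtain ⟨c, hc⟩ := h7
  have hcu : IsUnit c := by
    rcases hg.isUnit_or_isUnit hc with h8 | h8
    · exfalso
      have h9 := (ln_monic p (s, t)).eq_one_of_isUnit h8
      have h10 := ln_deg p (s, t)
      rw [h9, natDegree_one] at h10
      omega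
    · exact h8
  have hcm : c.Monic := by
    have := hgm.leadingCoeff
    rw [hc, leadingCoeff_mul, (ln_monic p (s, t)).leadingCoeff, one_mul] at this
    exact this
  rw [hc, hcm.eq_one_of_isUnit hcu, mul_one]

end Pool.Agent.H61.WC
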