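import Mathlib

/-!
# [H61 WC Td] THEOREM W (MP_187c26_nt), combinatorial half: total degree of polynomials in two variables

`TD N P`: the total degree of `P : k[X][Y]` is at most `N`.
-/

set_option autoImplicit false

open Polynomial
open scoped Polynomial.Bivariate

namespace Pool.Agent.H61.WC

variable {k : Type} [Field k]

/-- the total degree of `P` is at most `N` -/
def TD (N : ℕ) (P : k[X][Y]) : Prop := ∀ j, P.coeff j ≠ 0 → (P.coeff j).natDegree + j ≤ N

theorem td_iff (N : ℕ) (P : k[X][Y]) : TD N P ↔ ∀ j a, N < a + j → (P.coeff j).coeff a = 0 := by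
  constructor
  · intro h j a haj
    by_contra h0
    have h1 : P.coeff j ≠ 0 := fun h2 => h0 (by rw [h2, coeff_zero])
    have h2 := h j h1
    have h3 := le_natDegree_of_ne_zero h0
    omega
  · intro h j hj
    have h1 : (P.coeff j).coeff (P.coeff j).natDegree ≠ 0 := by
      rw [coeff_natDegree]
      exact leadingCoeff_ne_zero.2 hj
    by_contra h2
    exact h1 (h j _ (by omega))

theorem td_zero (N : ℕ) : TD N (0 : k[X][Y]) := fun j h => absurd (coeff_zero j) h

theorem TD.mono {N N' : ℕ} {P : k[X][Y]} (h : TD N P) (hN : N ≤ N') : TD N' P := fun j hj => (h j hj).trans hN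

theorem TD.add {N : ℕ} {P Q : k[X][Y]} (hP : TD N P) (hQ : TD N Q) : TD N (P + Q) := by
  rw [td_iff] at *
  intro j a h
  rw [coeff_add, coeff_add, hP j a h, hQ j a h, add_zero]

theorem TD.neg {N : ℕ} {P : k[X][Y]} (hP : TD N P) : TD N (-P) := by
  rw [td_iff] at *
  intro j a h
  rw [coeff_neg, coeff_neg, hP j a h, neg_zero]

theorem TD.sub {N : ℕ} {P Q : k[X][Y]} (hP : TD N P) (hQ : TD N Q) : TD N (P - Q) := by
  rw [sub_eq_add_neg]
  exact hP.add hQ.neg

theorem TD.sum {N : ℕ} {ι : Type} (s : Finset ι) (P : ι → k[X][Y]) (h : ∀ i ∈ s, TD N (P i)) : TD N (∑ i ∈ s, P i) := by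
  classical
  induction s using Finset.induction_on with
  | empty => rw [Finset.sum_empty]; exact td_zero N
  | insert i s his ih =>
    rw [Finset.sum_insert his]
    exact (h i (Finset.mem_insert_self i s)).add (ih fun j hj => h j (Finset.mem_insert_of_mem hj))

theorem TD.mul {M N : ℕ} {P Q : k[X][Y]} (hP : TD M P) (hQ : TD N Q) : TD (M + N) (P * Q) := by
  rw [td_iff] at *
  intro j a h
  rw [coeff_mul, finset_sum_coeff]
  refine Finset.sum_eq_zero fun x hx => ?_
  rw [coeff_mul]
  refine Finset.sum_eq_zero fun y hy => ?_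
  rw [Finset.HasAntidiagonal.mem_antidiagonal] at hx hy
  by_cases h1 : M < y.1 + x.1
  · rw [hP _ _ h1, zero_mul]
  · rw [hQ _ _ (by omega), mul_zero]

theorem td_C {N : ℕ} {f : k[X]} (h : f.natDegree ≤ N) : TD N (C f : k[X][Y]) := by
  intro j hj
  rcases Nat.eq_zero_or_pos j with rfl | h1
  · rw [coeff_C_zero]; omega
  · rw [coeff_C_ne_zero h1.ne'] at hj
    exact absurd rfl hj

theorem td_CX : TD 1 (C X : k[X][Y]) := td_C natDegree_X_le

theorem td_Y : TD 1 (Y : k[X][Y]) := by
  intro j hj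
  by_cases h : j = 1
  · subst h
    rw [coeff_X_one]
    simp
  · rw [coeff_X_of_ne_one h] at hj
    exact absurd rfl hj

theorem td_one : TD 0 (1 : k[X][Y]) := by
  rw [← C_1]
  exact td_C (by simp)

theorem TD.pow {N : ℕ} {P : k[X][Y]} (hP : TD N P) (m : ℕ) : TD (m * N) (P ^ m) := by
  induction m with
  | zero => rw [pow_zero, zero_mul]; exact td_one
  | succ m ih => rw [pow_succ, Nat.succ_mul]; exact ih.mul hP

theorem TD.natDegree_le {N : ℕ} {P : k[X][Y]} (hP : TD N P) : P.natDegree ≤ N := by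
  by_cases h : P = 0
  · rw [h]; simp
  · have h1 := hP P.natDegree (by rw [coeff_natDegree]; exact leadingCoeff_ne_zero.2 h)
    omega

theorem TD.coeff_le {N : ℕ} {P : k[X][Y]} (hP : TD N P) (j : ℕ) : (P.coeff j).natDegree ≤ N - j := by
  by_cases h : P.coeff j = 0
  · rw [h]; simp
  · have := hP j h
    omega

/-- the derivative with respect to `Y` -/
theorem TD.derivative {N : ℕ} {P : k[X][Y]} (hP : TD N P) : TD (N - 1) (derivative P) := by
  rw [td_iff] at *
  intro j a h
  rw [coeff_derivative]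
  have h1 : (P.coeff (j + 1) * ((j : k[X]) + 1)).coeff a = (P.coeff (j + 1)).coeff a * ((j : k) + 1) := by
    have h2 : ((j : k[X]) + 1) = C ((j : k) + 1) := by simp
    rw [h2, coeff_mul_C]
  rw [h1, hP (j + 1) a (by omega), zero_mul]

/-- the derivative with respect to `X` -/
noncomputable def dX (P : k[X][Y]) : k[X][Y] := ∑ j ∈ P.support, monomial j (Polynomial.derivative (P.coeff j))

theorem coeff_dX (P : k[X][Y]) (j : ℕ) : (dX P).coeff j = Polynomial.derivative (P.coeff j) := by
  unfold dX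
  rw [finset_sum_coeff]
  simp only [coeff_monomial]
  rw [Finset.sum_ite_eq' P.support j]
  split_ifs with h
  · rfl
  · rw [notMem_support_iff.1 h, map_zero]

theorem dX_add (P Q : k[X][Y]) : dX (P + Q) = dX P + dX Q := by
  ext1 j
  simp [coeff_dX]

theorem dX_mul (P Q : k[X][Y]) : dX (P * Q) = dX P * Q + P * dX Q := by
  ext1 j
  rw [coeff_add, coeff_dX, coeff_mul, coeff_mul, coeff_mul, map_sum, ← Finset.sum_add_distrib]
  refine Finset.sum_congr rfl fun x _ => ?_
  rw [derivative_mul, coeff_dX, coeff_dX]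

theorem dX_C (f : k[X]) : dX (C f : k[X][Y]) = C (Polynomial.derivative f) := by
  ext1 j
  rw [coeff_dX, coeff_C, coeff_C]
  split_ifs
  · rfl
  · exact map_zero _

theorem dX_Y : dX (Y : k[X][Y]) = 0 := by
  ext1 j
  rw [coeff_dX, coeff_X]
  split_ifs <;> simp

theorem dX_sub (P Q : k[X][Y]) : dX (P - Q) = dX P - dX Q := by
  ext1 j
  simp [coeff_dX]

theorem TD.dX {N : ℕ} {P : k[X][Y]} (hP : TD N P) : TD (N - 1) (WC.dX P) := by
  rw [td_iff] at *
  intro j a h
  rw [coeff_dX, coeff_derivative, hP j (a + 1) (by omega), zero_mul]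

end Pool.Agent.H61.WC
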